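import Pool.Agent.Run7.h782.WQ.Defs
import Pool.Agent.Run7.h811.WS.AlC
import Pool.Agent.Run7.h980.WS.Dec

/-!
Piece AlWQ of the project WQ: all moments of the antidivergence of the waves.
-/

set_option autoImplicit false

open MeasureTheory Set Filter Topology
open scoped ContDiff ENNReal

namespace Pool.Agent.Run7.h811.WQ

open H459R3.NS Pool.Agent.Run7 Pool.Agent.Run7.h782.GD Pool.Agent.Run7.h782.GS
open Pool.Agent.Run7.h782.WS Pool.Agent.Run7.h969.GG Pool.Agent.Run7.h811.WS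
open Pool.Agent.Run7.h782.WQ

/-- The normalised sum of sines. -/
noncomputable def sig (N : ℕ) (M : Fin N → ℕ) (n : K3) (x : V) : ℝ :=
  (∑ l, Real.sin (2 * Real.pi * (M l * ph n x))) / Real.sqrt N

variable {n : K3} {s : Cf} {P : Finset K3}

theorem L1.wave (hP : ∀ p ∉ P, s p = 0) {N : ℕ} (M : Fin N → ℕ) (a : Fin N → ℂ) (n : K3) :
    L1 (∑ l, a l • wv (M l) n s) :=
  L1.sum fun _ _ => L1.smul (L1_wv (L1.of_supp hP) _ _) _

/-- One direction, pointwise. -/
theorem pt_wave (hn : n ≠ 0) (hP : ∀ p ∉ P, s p = 0) {N : ℕ} (hN : 0 < N) {ε : ℝ}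
    {M : Fin N → ℕ} {i j : Fin 3} (hM : ∀ l, er n s P (M l) i j ≤ ε) (x : V) :
    ‖S (anti (∑ l, (((M l : ℝ) * len n / Real.sqrt N : ℝ) : ℂ) • wv (M l) n s) i j) x‖
      ≤ (‖S (fun k => s k i) x‖ + ‖S (fun k => s k j) x‖) / 3 * |sig N M n x| + N * ε := by
  have hN' : (0 : ℝ) < N := by exact_mod_cast hN
  have hN1 : (1 : ℝ) ≤ N := by exact_mod_cast hN
  have hsN : 0 < Real.sqrt N := Real.sqrt_pos.2 hN'
  have hsN1 : 1 ≤ Real.sqrt N := Real.one_le_sqrt.2 hN1
  have hls : L1 s := L1.of_supp hP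
  have hε : 0 ≤ ε := by
    refine le_trans ?_ (hM ⟨0, hN⟩)
    exact Finset.sum_nonneg fun p _ => add_nonneg (norm_nonneg _) (norm_nonneg _)
  set c : Cf := ∑ l, (((M l : ℝ) * len n / Real.sqrt N : ℝ) : ℂ) • wv (M l) n s with hc
  have hanti : anti c i j = fun k => ∑ l,
      (((M l : ℝ) * len n / Real.sqrt N : ℝ) : ℂ) * anti (wv (M l) n s) i j k := by
    funext k
    rw [anti_eq, hc, Finset.sum_apply, ac_sum]
    refine Finset.sum_congr rfl fun l _ => ?_
    rw [Pi.smul_apply, ac_smul, anti_eq]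
  have hSanti : S (anti c i j) x = ∑ l,
      (((M l : ℝ) * len n / Real.sqrt N : ℝ) : ℂ) * S (anti (wv (M l) n s) i j) x := by
    rw [hanti]
    exact S_lin _ (fun l => anti_summable (L1.div_len (L1_wv hls _ _)) i j) x
  set b : ℂ := ∑ p ∈ P, bc i j n (s p) * ee p x with hb
  have hbn : ‖b‖ ≤ (‖S (fun k => s k i) x‖ + ‖S (fun k => s k j) x‖) / (2 * Real.pi) :=
    S_bc hn hP i j x
  set y : ℝ := ∑ l, Real.sin (2 * Real.pi * (M l * ph n x)) with hy
  have e1 : S (anti c i j) x = (((Real.sqrt N)⁻¹ : ℝ) : ℂ) *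
      (b * (((2 * y : ℝ) : ℂ) * Complex.I)
      + ∑ l, (((M l : ℂ) * len n) * S (anti (wv (M l) n s) i j) x
        - b * (ee (M l • n) x - ee (-(M l • n)) x))) := by
    rw [hSanti, Finset.sum_sub_distrib, ← Finset.mul_sum]
    have e2 : ∑ l, (ee (M l • n) x - ee (-(M l • n)) x) = ((2 * y : ℝ) : ℂ) * Complex.I := by
      simp_rw [ee_sub]
      rw [← Finset.sum_mul, ← Complex.ofReal_sum, hy, Finset.mul_sum]
    rw [e2, add_sub_cancel, Finset.mul_sum]
    refine Finset.sum_congr rfl fun l _ => ?_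
    push_cast
    ring
  rw [e1, norm_mul, Complex.norm_real, Real.norm_of_nonneg (by positivity)]
  have h3 : ‖b * (((2 * y : ℝ) : ℂ) * Complex.I)
      + ∑ l, (((M l : ℂ) * len n) * S (anti (wv (M l) n s) i j) x
        - b * (ee (M l • n) x - ee (-(M l • n)) x))‖ ≤ ‖b‖ * (2 * |y|) + N * ε := by
    refine (norm_add_le _ _).trans (add_le_add (le_of_eq ?_) ?_)
    · rw [norm_mul, norm_mul, Complex.norm_I, mul_one, Complex.norm_real, Real.norm_eq_abs,
        abs_mul, abs_two]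
    · refine (norm_sum_le _ _).trans ?_
      refine (Finset.sum_le_sum fun l _ => (S_wv hP (M l) i j x).trans (hM l)).trans
        (le_of_eq ?_)
      rw [Finset.sum_const, Finset.card_univ, Fintype.card_fin, nsmul_eq_mul]
  have h4 : (Real.sqrt N)⁻¹ * |y| = |sig N M n x| := by
    show _ = |y / Real.sqrt N|
    rw [abs_div, abs_of_pos hsN]
    ring
  have h6 : (Real.sqrt N)⁻¹ ≤ 1 := inv_le_one_of_one_le₀ hsN1
  have hpi := Real.pi_gt_three
  have hsum0 : 0 ≤ ‖S (fun k => s k i) x‖ + ‖S (fun k => s k j) x‖ := by positivity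
  calc (Real.sqrt N)⁻¹ * ‖_‖ ≤ (Real.sqrt N)⁻¹ * (‖b‖ * (2 * |y|) + N * ε) :=
        mul_le_mul_of_nonneg_left h3 (by positivity)
    _ = (‖b‖ * 2) * ((Real.sqrt N)⁻¹ * |y|) + (Real.sqrt N)⁻¹ * (N * ε) := by ring
    _ ≤ ((‖S (fun k => s k i) x‖ + ‖S (fun k => s k j) x‖) / 3) * |sig N M n x|
        + 1 * (N * ε) := by
        refine add_le_add ?_ (mul_le_mul_of_nonneg_right h6 (by positivity))
        rw [h4]
        refine mul_le_mul_of_nonneg_right ?_ (abs_nonneg _)
        calc ‖b‖ * 2 ≤ (‖S (fun k => s k i) x‖ + ‖S (fun k => s k j) x‖) / (2 * Real.pi) * 2 :=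
              mul_le_mul_of_nonneg_right hbn two_pos.le
          _ = (‖S (fun k => s k i) x‖ + ‖S (fun k => s k j) x‖) / Real.pi := by
              field_simp
          _ ≤ _ := div_le_div_of_nonneg_left hsum0 (by norm_num) hpi.le
    _ = _ := by ring

theorem fn_nonneg (c : Cf) (x : V) : 0 ≤ fn c x := Finset.sum_nonneg fun _ _ => norm_nonneg _

theorem rn_nonneg (r : Mf) (x : V) : 0 ≤ rn r x :=
  Finset.sum_nonneg fun _ _ => Finset.sum_nonneg fun _ _ => norm_nonneg _

theorem fn_cont {c : Cf} (hc : L1 c) : Continuous (fn c) := by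
  unfold fn
  refine continuous_finsetSum _ fun i _ => (S_continuous ?_).norm
  exact Summable.of_norm (Summable.of_nonneg_of_le (fun _ => norm_nonneg _)
    (fun k => norm_le_pi_norm (c k) i) hc)

theorem rn_cont {r : Mf} (hr : ∀ i j, Summable (r i j)) : Continuous (rn r) := by
  unfold rn
  exact continuous_finsetSum _ fun i _ => continuous_finsetSum _ fun j _ => (S_continuous (hr i j)).norm

theorem sig_cont (N : ℕ) (M : Fin N → ℕ) (n : K3) : Continuous (sig N M n) := by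
  have := ph_cont n
  unfold sig
  fun_prop

/-- One direction, the norm of the matrix. -/
theorem rn_wave (hn : n ≠ 0) (hP : ∀ p ∉ P, s p = 0) {N : ℕ} (hN : 0 < N) {ε : ℝ}
    {M : Fin N → ℕ} (hM : ∀ l i j, er n s P (M l) i j ≤ ε) (x : V) :
    rn (anti (∑ l, (((M l : ℝ) * len n / Real.sqrt N : ℝ) : ℂ) • wv (M l) n s)) x
      ≤ 2 * (fn s x * |sig N M n x|) + 9 * (N * ε) := by
  unfold rn
  refine (Finset.sum_le_sum fun i _ => Finset.sum_le_sum fun j _ =>
    pt_wave hn hP hN (fun l => hM l i j) x).trans (le_of_eq ?_)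
  unfold fn
  simp only [Fin.sum_univ_three]
  ring

theorem rn_sum {ι : Type*} [Fintype ι] {c : ι → Cf} (hc : ∀ j, L1 (c j)) (x : V) :
    rn (anti (∑ j, c j)) x ≤ ∑ j, rn (anti (c j)) x := by
  have h1 : ∀ i i', anti (∑ j, c j) i i' = fun k => ∑ j, 1 * anti (c j) i i' k := by
    intro i i'
    funext k
    rw [anti_eq, Finset.sum_apply, ac_sum]
    refine Finset.sum_congr rfl fun j _ => ?_
    rw [one_mul, anti_eq]
  have h2 : ∀ i i', S (anti (∑ j, c j) i i') x = ∑ j, S (anti (c j) i i') x := by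
    intro i i'
    rw [h1, S_lin _ (fun j => anti_summable (L1.div_len (hc j)) i i') x]
    exact Finset.sum_congr rfl fun j _ => one_mul _
  unfold rn
  calc ∑ i, ∑ i', ‖S (anti (∑ j, c j) i i') x‖ ≤ ∑ i, ∑ i', ∑ j, ‖S (anti (c j) i i') x‖ := by
        refine Finset.sum_le_sum fun i _ => Finset.sum_le_sum fun i' _ => ?_
        rw [h2]
        exact norm_sum_le _ _
    _ = _ := by
        simp_rw [Finset.sum_comm (s := (Finset.univ : Finset (Fin 3))) (t := (Finset.univ : Finset ι))]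

theorem add_rpow_le' {a b p : ℝ} (ha : 0 ≤ a) (hb : 0 ≤ b) (hp : 0 < p) :
    (a + b) ^ p ≤ 2 ^ p * (a ^ p + b ^ p) := by
  have h1 : 0 ≤ a ^ p := Real.rpow_nonneg ha p
  have h2 : 0 ≤ b ^ p := Real.rpow_nonneg hb p
  have h3 : (0 : ℝ) ≤ 2 ^ p := Real.rpow_nonneg two_pos.le p
  rcases le_total a b with h | h
  · calc (a + b) ^ p ≤ (2 * b) ^ p := Real.rpow_le_rpow (by positivity) (by linarith) hp.le
      _ = 2 ^ p * b ^ p := Real.mul_rpow two_pos.le hb
      _ ≤ _ := mul_le_mul_of_nonneg_left (by linarith) h3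
  · calc (a + b) ^ p ≤ (2 * a) ^ p := Real.rpow_le_rpow (by positivity) (by linarith) hp.le
      _ = 2 ^ p * a ^ p := Real.mul_rpow two_pos.le ha
      _ ≤ _ := mul_le_mul_of_nonneg_left (by linarith) h3

theorem sum_rpow_le {J : ℕ} (hJ : J ≤ 9) {a : Fin J → ℝ} (ha : ∀ j, 0 ≤ a j) {p : ℝ}
    (hp : 0 < p) : (∑ j, a j) ^ p ≤ 9 ^ p * ∑ j, a j ^ p := by
  have h9 : (0 : ℝ) ≤ 9 ^ p := Real.rpow_nonneg (by norm_num) p
  have hs0 : 0 ≤ ∑ j, a j ^ p := Finset.sum_nonneg fun j _ => Real.rpow_nonneg (ha j) p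
  rcases (Finset.univ : Finset (Fin J)).eq_empty_or_nonempty with h | h
  · rw [h, Finset.sum_empty, Finset.sum_empty, Real.zero_rpow hp.ne', mul_zero]
  · obtain ⟨j₀, -, hj₀⟩ := Finset.exists_max_image Finset.univ a h
    have h1 : ∑ j, a j ≤ 9 * a j₀ := by
      calc ∑ j, a j ≤ ∑ _j : Fin J, a j₀ := Finset.sum_le_sum fun j hj => hj₀ j hj
        _ = J * a j₀ := by
            rw [Finset.sum_const, Finset.card_univ, Fintype.card_fin, nsmul_eq_mul]
        _ ≤ 9 * a j₀ := mul_le_mul_of_nonneg_right (by exact_mod_cast hJ) (ha j₀)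
    calc (∑ j, a j) ^ p ≤ (9 * a j₀) ^ p :=
          Real.rpow_le_rpow (Finset.sum_nonneg fun j _ => ha j) h1 hp.le
      _ = 9 ^ p * a j₀ ^ p := Real.mul_rpow (by norm_num) (ha j₀)
      _ ≤ _ := mul_le_mul_of_nonneg_left
          (Finset.single_le_sum (f := fun j => a j ^ p)
            (fun j _ => Real.rpow_nonneg (ha j) p) (Finset.mem_univ j₀)) h9

/-- The moments of the normalised sums of sines. -/
theorem mom_lim {s : Cf} (hs : L1 s) {n : K3} (hn : n ≠ 0) {N : ℕ} {a : Fin N → ℕ}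
    (ha : Function.Injective a) (ha1 : ∀ l, 1 ≤ a l) {p : ℝ} (hp : 0 < p) :
    Tendsto (fun K : ℕ => ∫ x in cube, fn s x ^ p * |sig N (fun l => K ^ a l) n x| ^ p) atTop
      (𝓝 (fp p s * ∫ y in Icc (0 : Fin N → ℝ) 1,
        |(∑ l, Real.sin (2 * Real.pi * y l)) / Real.sqrt N| ^ p)) := by
  set g : (Fin N → ℝ) → ℝ := fun y => |(∑ l, Real.sin (2 * Real.pi * y l)) / Real.sqrt N| ^ p
    with hg
  have hf : Continuous fun x => fn s x ^ p :=
    (fn_cont hs).rpow_const fun x => Or.inr hp.le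
  have hgc : Continuous g := by
    have h1 : Continuous fun y : Fin N → ℝ =>
        |(∑ l, Real.sin (2 * Real.pi * y l)) / Real.sqrt N| := by
      fun_prop
    exact h1.rpow_const fun x => Or.inr hp.le
  have hper : ∀ (y : Fin N → ℝ) (m : Fin N → ℤ), g (fun i => y i + m i) = g y := by
    intro y m
    simp only [hg]
    congr 3
    refine Finset.sum_congr rfl fun l _ => ?_
    rw [show 2 * Real.pi * (y l + m l) = 2 * Real.pi * y l + m l * (2 * Real.pi) by ring,
      Real.sin_add_int_mul_two_pi]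
  have h := h980.WS.decouple (n := fun _ : Fin N => n) ha ha1 (fun _ => hn)
    (f := fun x => ((fn s x ^ p : ℝ) : ℂ)) (Complex.continuous_ofReal.comp hf)
    (G := fun y => ((g y : ℝ) : ℂ)) (Complex.continuous_ofReal.comp hgc)
    (fun y m => by rw [hper])
  have h2 := (Complex.continuous_re.tendsto _).comp h
  have e1 : ((∫ x in cube, ((fn s x ^ p : ℝ) : ℂ)) * ∫ y in Icc (0 : Fin N → ℝ) 1,
      ((g y : ℝ) : ℂ)).re = fp p s * ∫ y in Icc (0 : Fin N → ℝ) 1, g y := by
    rw [integral_complex_ofReal, integral_complex_ofReal, ← Complex.ofReal_mul, Complex.ofReal_re]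
    rfl
  rw [e1] at h2
  refine h2.congr fun K => ?_
  show (∫ x in cube, ((fn s x ^ p : ℝ) : ℂ)
    * ((g (h980.WS.pz a (fun _ : Fin N => n) K x) : ℝ) : ℂ)).re = _
  have e2 : ∀ x, ((fn s x ^ p : ℝ) : ℂ) * ((g (h980.WS.pz a (fun _ : Fin N => n) K x) : ℝ) : ℂ)
      = ((fn s x ^ p * |sig N (fun l => K ^ a l) n x| ^ p : ℝ) : ℂ) := by
    intro x
    rw [← Complex.ofReal_mul]
    have e3 : g (h980.WS.pz a (fun _ : Fin N => n) K x) = |sig N (fun l => K ^ a l) n x| ^ p := by
      simp only [hg, sig]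
      congr 3
      refine Finset.sum_congr rfl fun l _ => ?_
      have e4 : h980.WS.pz a (fun _ : Fin N => n) K x l = ph (K ^ a l • n) x := rfl
      rw [e4, ph_nsmul]
    rw [e3]
  simp_rw [e2]
  rw [integral_complex_ofReal, Complex.ofReal_re]

/-- **Piece AlWQ.** -/
theorem alWQ (hKh : StmKh) : StmAlWQ := by
  obtain ⟨C, hC, hKh⟩ := hKh
  refine ⟨fun p => 36 ^ p * C p, fun p => mul_pos (Real.rpow_pos_of_pos (by norm_num) p) (hC p),
    ?_⟩
  intro J N n s P hN hJ hn hP _ hk p hp δ hδ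
  have hN' : (0 : ℝ) < N := by exact_mod_cast hN
  have h36 : (0 : ℝ) < 36 ^ p := Real.rpow_pos_of_pos (by norm_num) p
  -- the small parameters
  set δ' : ℝ := δ / (2 * 36 ^ p * (J + 1)) with hδ'
  have hδ'0 : 0 < δ' := by positivity
  set ε : ℝ := (δ / 2) ^ (1 / p) / (2 * (9 * (J * N) + 1)) with hε
  have hε0 : 0 < ε := by
    have : 0 < (δ / 2) ^ (1 / p) := Real.rpow_pos_of_pos (by positivity) _
    positivity
  -- exponents
  have hinj : ∀ j : Fin J, Function.Injective fun l : Fin N => (j : ℕ) + J * l + 1 := by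
    intro j l l' h
    have hJ0 : 0 < J := j.pos
    simp only at h
    have h1 : J * (l : ℕ) = J * (l' : ℕ) := by omega
    exact Fin.ext (Nat.eq_of_mul_eq_mul_left hJ0 h1)
  have hev1 : ∀ᶠ K : ℕ in atTop, ∀ j : Fin J,
      ∫ x in cube, fn (s j) x ^ p * |sig N (fun l => K ^ ((j : ℕ) + J * l + 1)) (n j) x| ^ p
        ≤ C p * fp p (s j) + δ' := by
    rw [eventually_all]
    intro j
    have h1 := mom_lim (L1.of_supp (hP j)) (hn j) (hinj j) (fun l => by omega) hp
    have h2 : fp p (s j) * (∫ y in Icc (0 : Fin N → ℝ) 1,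
        |(∑ l, Real.sin (2 * Real.pi * y l)) / Real.sqrt N| ^ p) < C p * fp p (s j) + δ' := by
      have h3 := hKh N hN p hp
      have h4 : 0 ≤ fp p (s j) := integral_nonneg fun x => Real.rpow_nonneg (fn_nonneg _ _) _
      have h5 := mul_le_mul_of_nonneg_left h3 h4
      linarith
    exact (h1.eventually (gt_mem_nhds h2)).mono fun K hK => hK.le
  have hev2 : ∀ᶠ K : ℕ in atTop, ∀ (j : Fin J) (l : Fin N) (i i' : Fin 3),
      er (n j) (s j) P (K ^ ((j : ℕ) + J * l + 1)) i i' ≤ ε := by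
    rw [eventually_all]
    intro j
    rw [eventually_all]
    intro l
    rw [eventually_all]
    intro i
    rw [eventually_all]
    intro i'
    have h1 : Tendsto (fun K : ℕ => K ^ ((j : ℕ) + J * l + 1)) atTop atTop :=
      tendsto_pow_atTop (by omega)
    exact (((er_lim (hn j) (hk j) i i').comp h1).eventually (gt_mem_nhds hε0)).mono
      fun K hK => hK.le
  filter_upwards [hev1, hev2] with K h1 h2
  set M : Fin J → Fin N → ℕ := fun j l => K ^ ((j : ℕ) + J * l + 1) with hM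
  set c : Fin J → Cf := fun j => ∑ l : Fin N,
    (((M j l : ℕ) * len (n j) / Real.sqrt N : ℝ) : ℂ) • wv (M j l) (n j) (s j) with hc
  show rp p (anti (∑ j, c j)) ≤ _
  have hcL : ∀ j, L1 (c j) := fun j => L1.wave (hP j) _ _ _
  have hpt : ∀ x, rn (anti (∑ j, c j)) x
      ≤ (∑ j, 2 * (fn (s j) x * |sig N (M j) (n j) x|)) + 9 * (J * N) * ε := by
    intro x
    refine (rn_sum hcL x).trans ?_
    refine (Finset.sum_le_sum fun j _ => rn_wave (hn j) (hP j) hN (M := M j)
      (fun l i i' => h2 j l i i') x).trans (le_of_eq ?_)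
    rw [Finset.sum_add_distrib, Finset.sum_const, Finset.card_univ, Fintype.card_fin,
      nsmul_eq_mul]
    ring
  have hterm0 : ∀ j x, 0 ≤ fn (s j) x * |sig N (M j) (n j) x| := fun j x =>
    mul_nonneg (fn_nonneg _ _) (abs_nonneg _)
  have hpt2 : ∀ x, rn (anti (∑ j, c j)) x ^ p
      ≤ 36 ^ p * (∑ j, fn (s j) x ^ p * |sig N (M j) (n j) x| ^ p)
        + 2 ^ p * (9 * (J * N) * ε) ^ p := by
    intro x
    have h3 : 0 ≤ ∑ j, 2 * (fn (s j) x * |sig N (M j) (n j) x|) :=
      Finset.sum_nonneg fun j _ => mul_nonneg two_pos.le (hterm0 j x)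
    refine (Real.rpow_le_rpow (rn_nonneg _ _) (hpt x) hp.le).trans ?_
    refine (add_rpow_le' h3 (by positivity) hp).trans ?_
    rw [mul_add]
    refine add_le_add ?_ le_rfl
    have h4 := sum_rpow_le hJ (fun j => mul_nonneg two_pos.le (hterm0 j x)) hp
    have h5 : ∑ j, (2 * (fn (s j) x * |sig N (M j) (n j) x|)) ^ p
        = 2 ^ p * ∑ j, fn (s j) x ^ p * |sig N (M j) (n j) x| ^ p := by
      rw [Finset.mul_sum]
      refine Finset.sum_congr rfl fun j _ => ?_
      rw [Real.mul_rpow two_pos.le (hterm0 j x), Real.mul_rpow (fn_nonneg _ _) (abs_nonneg _)]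
    rw [h5] at h4
    have h6 : (36 : ℝ) ^ p = 2 ^ p * (9 ^ p * 2 ^ p) := by
      rw [← Real.mul_rpow (by norm_num) (by norm_num), ← Real.mul_rpow (by norm_num)
        (by norm_num)]
      norm_num
    calc (2 : ℝ) ^ p * (∑ j, 2 * (fn (s j) x * |sig N (M j) (n j) x|)) ^ p
        ≤ 2 ^ p * (9 ^ p * (2 ^ p * ∑ j, fn (s j) x ^ p * |sig N (M j) (n j) x| ^ p)) :=
          mul_le_mul_of_nonneg_left h4 (Real.rpow_nonneg two_pos.le p)
      _ = _ := by
          rw [h6]
          ring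
  have hcj : ∀ j, Continuous fun x => fn (s j) x ^ p * |sig N (M j) (n j) x| ^ p := fun j =>
    ((fn_cont (L1.of_supp (hP j))).rpow_const fun x => Or.inr hp.le).mul
      ((sig_cont N (M j) (n j)).abs.rpow_const fun x => Or.inr hp.le)
  have hcontL : Continuous fun x => rn (anti (∑ j, c j)) x ^ p := by
    refine (rn_cont fun i i' => ?_).rpow_const fun x => Or.inr hp.le
    exact anti_summable (L1.div_len (L1.sum fun j _ => hcL j)) i i'
  have hcontR : Continuous fun x => 36 ^ p * (∑ j, fn (s j) x ^ p * |sig N (M j) (n j) x| ^ p)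
      + 2 ^ p * (9 * (J * N) * ε) ^ p :=
    (continuous_const.mul (continuous_finsetSum _ fun j _ => hcj j)).add continuous_const
  have hI := setIntegral_mono_on (integrableOn_cube hcontL) (integrableOn_cube hcontR)
    (measurableSet_Icc : MeasurableSet cube) (fun x _ => hpt2 x)
  refine hI.trans ?_
  have := cube_finite
  have hi1 : Integrable (fun x => 36 ^ p * (∑ j, fn (s j) x ^ p * |sig N (M j) (n j) x| ^ p))
      (volume.restrict cube) :=
    integrableOn_cube (continuous_const.mul (continuous_finsetSum _ fun j _ => hcj j))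
  have hi2 : ∀ j, Integrable (fun x => fn (s j) x ^ p * |sig N (M j) (n j) x| ^ p)
      (volume.restrict cube) := fun j => integrableOn_cube (hcj j)
  rw [integral_add hi1 (integrable_const _), integral_const_mul, integral_finsetSum Finset.univ
    (fun j _ => hi2 j), integral_const, measureReal_restrict_apply_univ,
    Measure.real, volume_cube]
  have h3 : ∑ j, ∫ x in cube, fn (s j) x ^ p * |sig N (M j) (n j) x| ^ p
      ≤ C p * (∑ j, fp p (s j)) + J * δ' := by
    refine (Finset.sum_le_sum fun j _ => h1 j).trans (le_of_eq ?_)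
    rw [Finset.sum_add_distrib, ← Finset.mul_sum, Finset.sum_const, Finset.card_univ,
      Fintype.card_fin, nsmul_eq_mul]
  have h4 : (36 : ℝ) ^ p * (J * δ') ≤ δ / 2 := by
    rw [hδ', mul_div_assoc', mul_div_assoc', div_le_iff₀ (by positivity)]
    have : (0 : ℝ) ≤ J := Nat.cast_nonneg J
    nlinarith [mul_pos h36 hδ]
  have h5 : (2 : ℝ) ^ p * (9 * (J * N) * ε) ^ p ≤ δ / 2 := by
    rw [← Real.mul_rpow two_pos.le (by positivity)]
    have h6 : 2 * (9 * (J * N) * ε) ≤ (δ / 2) ^ (1 / p) := by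
      have h7 : 0 < (δ / 2) ^ (1 / p) := Real.rpow_pos_of_pos (by positivity) _
      have h8 : (0 : ℝ) ≤ J * N := by positivity
      rw [hε, mul_div_assoc', mul_div_assoc', div_le_iff₀ (by positivity)]
      nlinarith
    calc (2 * (9 * (J * N) * ε)) ^ p ≤ ((δ / 2) ^ (1 / p)) ^ p :=
          Real.rpow_le_rpow (by positivity) h6 hp.le
      _ = δ / 2 := by
          rw [← Real.rpow_mul (by positivity), one_div_mul_cancel hp.ne', Real.rpow_one]
  have h6 := mul_le_mul_of_nonneg_left h3 h36.le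
  simp only [ENNReal.toReal_one, one_smul]
  have e : (36 : ℝ) ^ p * C p * (∑ j, fp p (s j)) + δ
      = 36 ^ p * (C p * ∑ j, fp p (s j)) + δ := by ring
  rw [e]
  linarith

end Pool.Agent.Run7.h811.WQ
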