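import Pool.Agent.Run7.h782.WQ.Defs
import Pool.Agent.Run7.h811.WS.InitG
import Pool.Agent.Run7.h811.WQ.AlWQ

/-!
Piece InitQ of the project WQ: from the iteration in coefficients to fields.
-/

set_option autoImplicit false

open MeasureTheory Set Filter Topology
open scoped ContDiff ENNReal

namespace Pool.Agent.Run7.h811.WQ

open H459R3.NS Pool.Agent.Run7 Pool.Agent.Run7.h782.GD Pool.Agent.Run7.h782.GS
open Pool.Agent.Run7.h782.WS Pool.Agent.Run7.h744.GS Pool.Agent.Run7.h744.WS
open Pool.Agent.Run7.h969.WS Pool.Agent.Run7.h811.WS Pool.Agent.Run7.h782.WQ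

/-! ### Integrals of periodic functions -/

theorem per_span' {f : V → ℝ} (hf : Per f)
    (g : Submodule.span ℤ (Set.range (Pi.basisFun ℝ (Fin 3)))) (x : V) : f (g +ᵥ x) = f x := by
  obtain ⟨v, hv⟩ := g
  have key : ∀ v ∈ Submodule.span ℤ (Set.range (Pi.basisFun ℝ (Fin 3))), ∀ x, f (v + x) = f x := by
    intro v hv
    induction hv using Submodule.span_induction with
    | mem v hv =>
      obtain ⟨i, rfl⟩ := hv
      intro x
      rw [Pi.basisFun_apply, add_comm]
      exact hf i x
    | zero => intro x; rw [zero_add]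
    | add a b _ _ ha hb => intro x; rw [add_assoc, ha, hb]
    | smul n a _ ha =>
      intro x
      induction n using Int.induction_on generalizing x with
      | zero => rw [zero_smul, zero_add]
      | succ k ih => rw [add_smul, one_smul, add_assoc, ih, ha]
      | pred k ih =>
        rw [sub_smul, one_smul]
        have h1 := ha ((-(k : ℤ)) • a - a + x)
        have e1 : a + ((-(k : ℤ)) • a - a + x) = (-(k : ℤ)) • a + x := by abel
        rw [e1, ih] at h1
        exact h1.symm
  exact key v hv x

theorem int_shift' {f : V → ℝ} (hf : Per f) (h : V) :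
    ∫ x in cube, f (x + h) = ∫ x in cube, f x := by
  set dom : Set V := ZSpan.fundamentalDomain (Pi.basisFun ℝ (Fin 3)) with hdom
  have dom_ae : dom =ᵐ[volume] cube := by
    have h1 : dom = Set.pi univ fun _ : Fin 3 => Ico (0 : ℝ) 1 := by
      ext x
      simp [dom, ZSpan.mem_fundamentalDomain]
    have h2 : cube = Icc (0 : V) 1 := rfl
    rw [h1, h2]
    exact Measure.univ_pi_Ico_ae_eq_Icc (μ := fun _ : Fin 3 => (volume : Measure ℝ))
      (f := (0 : V)) (g := (1 : V))
  have hD : IsAddFundamentalDomain (Submodule.span ℤ (Set.range (Pi.basisFun ℝ (Fin 3)))) dom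
      (volume : Measure V) := ZSpan.isAddFundamentalDomain _ _
  have hmp : MeasurePreserving (fun x : V => x - h) volume volume := measurePreserving_sub_right _ h
  have hinv : VAddInvariantMeasure (Submodule.span ℤ (Set.range (Pi.basisFun ℝ (Fin 3)))) V
      (volume : Measure V) := ⟨fun g s _ => measure_preimage_add volume (g : V) s⟩
  have hD' : IsAddFundamentalDomain (Submodule.span ℤ (Set.range (Pi.basisFun ℝ (Fin 3))))
      ((fun x : V => x - h) ⁻¹' dom) (volume : Measure V) := by
    refine hD.preimage_of_equiv hmp.quasiMeasurePreserving (e := id) Function.bijective_id ?_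
    intro g x
    simp only [id]
    show (g +ᵥ x) - h = g +ᵥ (x - h)
    rw [Submodule.vadd_def, Submodule.vadd_def, vadd_eq_add, vadd_eq_add]
    abel
  have h1 : ∫ x in dom, f x = ∫ x in (fun x : V => x - h) ⁻¹' dom, f x :=
    hD.setIntegral_eq hD' (per_span' hf)
  have hmp2 : MeasurePreserving (fun x : V => x + h) volume volume := measurePreserving_add_right _ h
  have h2 := hmp2.setIntegral_preimage_emb (measurableEmbedding_addRight h) f
    ((fun x : V => x - h) ⁻¹' dom)
  have h3 : (fun x : V => x + h) ⁻¹' ((fun x : V => x - h) ⁻¹' dom) = dom := by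
    ext x; simp
  rw [h3] at h2
  rw [← setIntegral_congr_set dom_ae, ← setIntegral_congr_set dom_ae, h2, h1]

/-! ### The norms in `L² L^q` -/

theorem fn_per (c : Cf) : Per (fn c) := by
  intro j x
  unfold fn
  exact Finset.sum_congr rfl fun i _ => by rw [h32.GD.per_S (fun k => c k i) j x]

theorem lq_clause {b : ℝ → Cf} {m : V} {q : ℝ} (hq : 1 ≤ q)
    (hu : ContinuousOn (fun z : ℝ × V => m + fld b z.1 (z.2 - z.1 • m)) (Ioi 0 ×ˢ univ))
    (hbs : ∀ t, 0 < t → Summable fun k => ‖b t k‖)
    (hI : IntegrableOn (fun t => fp (2 * q) (b t) ^ (1 / q)) (Ioc 0 1)) (T : ℝ) :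
    IntegrableOn (fun t => (∫ x in cube, ∑ i, |(m + fld b t (x - t • m)) i| ^ (2 * q)) ^ (1 / q))
      (Ioc 0 T) := by
  have hq0 : 0 < q := by linarith
  have h2q : 0 < 2 * q := by linarith
  have hiq : 0 < 1 / q := by positivity
  set F : ℝ × V → ℝ := fun z => ∑ i, |(m + fld b z.1 (z.2 - z.1 • m)) i| ^ (2 * q) with hF
  have hFc : ContinuousOn F (Ioi 0 ×ˢ univ) := by
    refine continuousOn_finsetSum _ fun i _ => ?_
    have h1 : ContinuousOn (fun z : ℝ × V => (m + fld b z.1 (z.2 - z.1 • m)) i)
        (Ioi 0 ×ˢ univ) := (continuous_apply i).comp_continuousOn hu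
    exact h1.abs.rpow_const fun z _ => Or.inr h2q.le
  have hF0 : ∀ z, 0 ≤ F z := fun z =>
    Finset.sum_nonneg fun i _ => Real.rpow_nonneg (abs_nonneg _) _
  set G : ℝ → ℝ := fun t => (∫ x in cube, F (t, x)) with hG
  have hG0 : ∀ t, 0 ≤ G t := fun t => integral_nonneg fun x => hF0 _
  show IntegrableOn (fun t => G t ^ (1 / q)) (Ioc 0 T)
  have hmeas : ∀ A : Set ℝ, MeasurableSet A → A ⊆ Ioi 0 →
      AEStronglyMeasurable (fun t => G t ^ (1 / q)) (volume.restrict A) := by
    intro A hA hA0
    have h1 : AEStronglyMeasurable F ((volume : Measure (ℝ × V)).restrict (A ×ˢ cube)) :=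
      (hFc.mono (prod_mono hA0 (subset_univ _))).aestronglyMeasurable
        (hA.prod (measurableSet_Icc : MeasurableSet cube))
    rw [Measure.volume_eq_prod, ← Measure.prod_restrict] at h1
    have h2 := h1.integral_prod_right'
    exact (Real.continuous_rpow_const hiq.le).comp_aestronglyMeasurable h2
  -- near zero
  have hfx : ∀ t, 0 < t → Continuous fun x : V => F (t, x) := by
    intro t ht
    have h1 : ContinuousOn (fun x : V => F (t, x)) univ :=
      hFc.comp (continuous_const.prodMk continuous_id).continuousOn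
        (fun x _ => ⟨ht, mem_univ _⟩)
    exact continuousOn_univ.1 h1
  have hbd : ∀ t, 0 < t → G t ≤ 3 * 2 ^ (2 * q) * (‖m‖ ^ (2 * q) + fp (2 * q) (b t)) := by
    intro t ht
    have hL : L1 (b t) := hbs t ht
    have hfc : Continuous fun x : V => fn (b t) (x - t • m) ^ (2 * q) :=
      ((fn_cont hL).comp (continuous_id.sub continuous_const)).rpow_const fun x => Or.inr h2q.le
    have h1 : ∀ x, F (t, x) ≤ 3 * 2 ^ (2 * q) * (‖m‖ ^ (2 * q)
        + fn (b t) (x - t • m) ^ (2 * q)) := by
      intro x
      have h2 : ∀ i : Fin 3, |(m + fld b t (x - t • m)) i| ^ (2 * q)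
          ≤ 2 ^ (2 * q) * (‖m‖ ^ (2 * q) + fn (b t) (x - t • m) ^ (2 * q)) := by
        intro i
        have h3 : |(m + fld b t (x - t • m)) i| ≤ ‖m‖ + fn (b t) (x - t • m) := by
          rw [Pi.add_apply]
          refine (abs_add_le _ _).trans (add_le_add ?_ ?_)
          · rw [← Real.norm_eq_abs]
            exact norm_le_pi_norm m i
          · refine (Complex.abs_re_le_norm _).trans ?_
            exact Finset.single_le_sum
              (f := fun i => ‖S (fun k => b t k i) (x - t • m)‖)
              (fun _ _ => norm_nonneg _) (Finset.mem_univ i)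
        exact (Real.rpow_le_rpow (abs_nonneg _) h3 h2q.le).trans
          (add_rpow_le' (norm_nonneg _) (fn_nonneg _ _) h2q)
      refine (Finset.sum_le_sum fun i _ => h2 i).trans (le_of_eq ?_)
      rw [Finset.sum_const, Finset.card_univ, Fintype.card_fin, nsmul_eq_mul]
      push_cast
      ring
    have hRc : Continuous fun x : V => 3 * 2 ^ (2 * q) * (‖m‖ ^ (2 * q)
        + fn (b t) (x - t • m) ^ (2 * q)) := continuous_const.mul (continuous_const.add hfc)
    have h4 : ∫ x in cube, F (t, x) ≤ ∫ x in cube, 3 * 2 ^ (2 * q) * (‖m‖ ^ (2 * q)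
        + fn (b t) (x - t • m) ^ (2 * q)) :=
      setIntegral_mono_on (integrableOn_cube (hfx t ht)) (integrableOn_cube hRc)
        (measurableSet_Icc : MeasurableSet cube) (fun x _ => h1 x)
    refine h4.trans (le_of_eq ?_)
    have := cube_finite
    rw [integral_const_mul, integral_add (integrable_const _) (integrableOn_cube hfc),
      integral_const, measureReal_restrict_apply_univ, Measure.real, volume_cube]
    have h5 : ∫ x in cube, fn (b t) (x - t • m) ^ (2 * q) = fp (2 * q) (b t) := by
      have hper : Per fun x : V => fn (b t) x ^ (2 * q) := fun j x => by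
        show fn (b t) (x + Pi.single j 1) ^ (2 * q) = _
        rw [fn_per (b t) j x]
      have h6 := int_shift' hper (-(t • m))
      simp only [← sub_eq_add_neg] at h6
      exact h6
    rw [h5]
    simp
  have hfp0 : ∀ t, 0 ≤ fp (2 * q) (b t) := fun t =>
    integral_nonneg fun x => Real.rpow_nonneg (fn_nonneg _ _) _
  have hA : IntegrableOn (fun t => G t ^ (1 / q)) (Ioc 0 1) := by
    set c1 : ℝ := (3 * 2 ^ (2 * q)) ^ (1 / q) * 2 ^ (1 / q) with hc1
    have hdom : IntegrableOn (fun t => c1 * ((‖m‖ ^ (2 * q)) ^ (1 / q)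
        + fp (2 * q) (b t) ^ (1 / q))) (Ioc 0 1) :=
      Integrable.const_mul (Integrable.add (integrableOn_const (by simp)) hI) _
    refine Integrable.mono' hdom (hmeas _ measurableSet_Ioc fun t ht => ht.1)
      ((ae_restrict_iff' measurableSet_Ioc).2 (Eventually.of_forall fun t ht => ?_))
    have hm0 : 0 ≤ ‖m‖ ^ (2 * q) := Real.rpow_nonneg (norm_nonneg _) _
    have h3 : (0 : ℝ) ≤ 3 * 2 ^ (2 * q) :=
      mul_nonneg (by norm_num) (Real.rpow_nonneg two_pos.le _)
    rw [Real.norm_of_nonneg (Real.rpow_nonneg (hG0 t) _)]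
    calc G t ^ (1 / q) ≤ (3 * 2 ^ (2 * q) * (‖m‖ ^ (2 * q) + fp (2 * q) (b t))) ^ (1 / q) :=
          Real.rpow_le_rpow (hG0 t) (hbd t ht.1) hiq.le
      _ = (3 * 2 ^ (2 * q)) ^ (1 / q) * (‖m‖ ^ (2 * q) + fp (2 * q) (b t)) ^ (1 / q) :=
          Real.mul_rpow h3 (add_nonneg hm0 (hfp0 t))
      _ ≤ (3 * 2 ^ (2 * q)) ^ (1 / q) * (2 ^ (1 / q) * ((‖m‖ ^ (2 * q)) ^ (1 / q)
          + fp (2 * q) (b t) ^ (1 / q))) :=
          mul_le_mul_of_nonneg_left (add_rpow_le' hm0 (hfp0 t) hiq) (Real.rpow_nonneg h3 _)
      _ = _ := by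
          rw [hc1]
          ring
  -- away from zero
  have hB : IntegrableOn (fun t => G t ^ (1 / q)) (Icc 1 T) := by
    have hcomp : IsCompact (Icc (1 : ℝ) T ×ˢ cube) :=
      isCompact_Icc.prod (isCompact_Icc : IsCompact cube)
    have hsub : Icc (1 : ℝ) T ×ˢ cube ⊆ Ioi 0 ×ˢ univ :=
      prod_mono (fun t ht => lt_of_lt_of_le one_pos ht.1) (subset_univ _)
    obtain ⟨M, hM⟩ := hcomp.exists_bound_of_continuousOn (hFc.mono hsub)
    refine Integrable.mono' (g := fun _ => |M| ^ (1 / q)) (integrableOn_const (by simp))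
      (hmeas _ measurableSet_Icc fun t ht => lt_of_lt_of_le one_pos ht.1)
      ((ae_restrict_iff' measurableSet_Icc).2 (Eventually.of_forall fun t ht => ?_))
    rw [Real.norm_of_nonneg (Real.rpow_nonneg (hG0 t) _)]
    refine Real.rpow_le_rpow (hG0 t) ?_ hiq.le
    have ht0 : (0 : ℝ) < t := lt_of_lt_of_le one_pos ht.1
    have h1 := norm_setIntegral_le_of_norm_le_const (μ := (volume : Measure V)) (s := cube)
      (f := fun x => F (t, x)) (C := |M|) (by rw [volume_cube]; exact ENNReal.one_lt_top)
      (fun x hx => (hM (t, x) ⟨ht, hx⟩).trans (le_abs_self M))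
    rw [Measure.real, volume_cube] at h1
    simp only [ENNReal.toReal_one, mul_one] at h1
    exact (le_abs_self _).trans h1
  refine (hA.union hB).mono_set ?_
  intro t ht
  rcases le_or_gt t 1 with h | h
  · exact Or.inl ⟨ht.1, h⟩
  · exact Or.inr ⟨h.le, ht.2⟩


/-- **Piece InitQ.** -/
theorem initQ (hIter : StmIterQ) (hD1 : StmD1) (hTg : StmTg) (hP2 : StmPhys2) : StmInitQ := by
  intro ν hν c hcH hcV R hStr hDiv Q hQ hRQ U P hU hmean φ hφ δ hδ
  have hpi := Real.pi_pos
  set m : V := fun i => ∫ y in cube, U 0 y i with hm'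
  have hm0 : ∀ i, c 0 i = ((m i : ℝ) : ℂ) := fun i => (hmean i).symm
  -- the shifted target
  set U' : ℝ → V → V := fun t x => -m + U t (x - t • (-m)) with hU'
  have hUs : ∀ T, IsSol ν T U' (fun t x => P t (x - t • (-m))) := fun T =>
    h32.GD.galilei (hU T) (-m)
  have hU0c : ∀ i, Continuous fun x => U 0 x i := fun i =>
    ((hU 1).sp (t := 0) ⟨le_rfl, one_pos⟩ i).smooth.continuous
  have hmean' : ∀ i, ∫ x in cube, U' 0 x i = 0 := by
    intro i
    have e : ∀ x, U' 0 x i = -(m i) + U 0 x i := by
      intro x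
      simp only [hU', zero_smul, sub_zero, Pi.add_apply, Pi.neg_apply]
    simp_rw [e]
    have := cube_finite
    rw [integral_add (integrable_const _) (integrableOn_cube (hU0c i))]
    simp only [integral_const, measureReal_restrict_apply_univ, smul_eq_mul]
    rw [Measure.real, volume_cube]
    simp [hm']
  have hTgU := hTg ν hν U' _ hUs hmean'
  -- the datum without mean
  set c' : Cf := fun k => if k = 0 then 0 else c k with hc'
  have hc'k : ∀ k, k ≠ 0 → c' k = c k := fun k hk => by simp only [hc']; rw [if_neg hk]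
  have hc'0 : c' 0 = 0 := by simp [hc']
  have hc'le : ∀ k, ‖c' k‖ ≤ ‖c k‖ := by
    intro k
    by_cases hk : k = 0
    · subst hk
      rw [hc'0, norm_zero]
      exact norm_nonneg _
    · rw [hc'k k hk]
  have hcH' : Herm c' := by
    intro k i
    by_cases hk : k = 0
    · subst hk
      rw [neg_zero, hc'0]
      simp
    · rw [hc'k _ (neg_ne_zero.2 hk), hc'k k hk]
      exact hcH k i
  have hcV' : Dv c' := by
    intro k
    by_cases hk : k = 0
    · subst hk
      rw [hc'0]
      exact kd_zero_right 0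
    · rw [hc'k k hk]
      exact hcV k
  have hDiv' : IsDiv R c' := fun k hk => by rw [hc'k k hk, hDiv k hk]
  obtain ⟨r, hdat⟩ := hD1 c' R Q hcH' hcV' hc'0 hStr hDiv' hQ hRQ
  obtain ⟨b, hb, hblim, hbd, hbes, hsq, hLq, hLQ, hL2, hclose⟩ :=
    hIter ν hν _ hTgU Q c' r hdat (fun x => φ (2 * x)) (gg_double hφ) δ hδ
  obtain ⟨p, hp⟩ := hP2 ν b hb m
  -- facts for positive times
  have hhalf : ∀ t : ℝ, t / 2 + t / 2 = t := fun t => by ring
  have hbt : ∀ t, 0 < t → (Summable fun k => ‖b t k‖) ∧ Herm (b t) ∧ b t 0 = 0 := by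
    intro t ht
    have H := hb (t / 2) (by positivity)
    obtain ⟨μ, hμ, C, hC⟩ := H.dec
    have h0 : (0 : ℝ) ≤ t / 2 := by positivity
    refine ⟨?_, ?_, ?_⟩
    · refine Summable.of_nonneg_of_le (fun _ => norm_nonneg _) (fun k => ?_)
        ((h32.GD.summable_exp hμ).mul_left C)
      have := hC (t / 2) h0 k
      simpa only [hhalf] using this
    · have := H.herm (t / 2) h0
      simpa only [hhalf] using this
    · have := H.zero (t / 2) h0
      simpa only [hhalf] using this
  have hbi : ∀ t, 0 < t → ∀ i, Summable fun k => b t k i := fun t ht i =>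
    Summable.of_norm (Summable.of_nonneg_of_le (fun _ => norm_nonneg _)
      (fun k => norm_le_pi_norm (b t k) i) (hbt t ht).1)
  refine ⟨fun t x => m + fld b t (x - t • m), p, hp, ?_, ?_, ?_, ?_, ?_, ?_, ?_⟩
  · -- energy
    intro T i
    have hcont : ContinuousOn (fun z : ℝ × V => (m + fld b z.1 (z.2 - z.1 • m)) i ^ 2)
        (Ioi 0 ×ˢ univ) :=
      ((continuous_apply i).comp_continuousOn hp.smooth_u.continuousOn).pow 2
    have hfx : ∀ t, 0 < t → Continuous fun x : V => (m + fld b t (x - t • m)) i ^ 2 := by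
      intro t ht
      have : (fun x => (m + fld b t (x - t • m)) i ^ 2) = fun x => (S (ser b m t i) x).re ^ 2 :=
        funext fun x => by rw [ser_eq (hbi t ht i)]
      rw [this]
      exact (Complex.continuous_re.comp (S_continuous (ser_summable (hbi t ht i)))).pow 2
    have hA : IntegrableOn (fun z : ℝ × V => (m + fld b z.1 (z.2 - z.1 • m)) i ^ 2)
        (Ioc 0 1 ×ˢ cube) := by
      refine strip_int (D := fun t => ‖m‖ ^ 2 + ∑' k, ‖b t k‖ ^ 2)
        (hcont.mono (prod_mono (fun t ht => ht.1) (subset_univ _))) (fun z => sq_nonneg _)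
        (fun t ht => integrableOn_cube (hfx t ht.1)) ?_ ?_
      · exact Integrable.add (integrableOn_const (by simp)) hL2
      · intro t ht
        obtain ⟨hs, _, hz⟩ := hbt t ht.1
        exact int_sq_le i hs hz
    have hB : IntegrableOn (fun z : ℝ × V => (m + fld b z.1 (z.2 - z.1 • m)) i ^ 2)
        (Icc 1 T ×ˢ cube) := by
      refine ContinuousOn.integrableOn_compact (isCompact_Icc.prod isCompact_Icc) (hcont.mono ?_)
      exact prod_mono (fun t ht => lt_of_lt_of_le one_pos ht.1) (subset_univ _)
    refine (hA.union hB).mono_set ?_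
    rintro ⟨t, x⟩ ⟨ht, hx⟩
    rcases le_or_gt t 1 with h | h
    · exact Or.inl ⟨⟨ht.1, h⟩, hx⟩
    · exact Or.inr ⟨⟨h.le, ht.2⟩, hx⟩
  · -- the norms in `L² L^q`
    intro n T
    exact lq_clause (hQ n) hp.smooth_u.continuousOn (fun t ht => (hbt t ht).1) (hLQ n) T
  · -- convergence of the coefficients
    intro k
    rw [tendsto_pi_nhds]
    intro i
    have hee : Tendsto (fun t : ℝ => ee k (-(t • m))) (𝓝[>] 0) (𝓝 1) := by
      have h1 : Continuous fun t : ℝ => ee k (-(t • m)) :=
        (ee_continuous k).comp (continuous_id.smul continuous_const).neg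
      have h2 := h1.tendsto 0
      rw [zero_smul, neg_zero] at h2
      have h3 : ee k 0 = 1 := by simp [ee, ph]
      rw [h3] at h2
      exact h2.mono_left nhdsWithin_le_nhds
    have h1 := (hee.mul ((tendsto_pi_nhds.1 (hblim k)) i)).const_add
      (if k = 0 then ((m i : ℝ) : ℂ) else 0)
    have h2 : (if k = 0 then ((m i : ℝ) : ℂ) else 0) + 1 * c' k i = c k i := by
      by_cases hk : k = 0
      · subst hk
        rw [if_pos rfl, hc'0, Pi.zero_apply, mul_zero, add_zero, hm0]
      · rw [if_neg hk, hc'k k hk, zero_add, one_mul]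
    rw [h2] at h1
    refine h1.congr' ?_
    filter_upwards [self_mem_nhdsWithin] with t ht
    exact (fr_field (hbi t ht i) (hbt t ht).2.1 k).symm
  · -- the polynomial bound
    obtain ⟨C, hC⟩ := hbd
    refine ⟨‖m‖ + |C|, fun t ht ht1 k => ?_⟩
    have hl : 0 ≤ len k := h782.GD.len_nonneg k
    have h1 : (1 : ℝ) ≤ (1 + len k) ^ 2 := by nlinarith
    refine (pi_norm_le_iff_of_nonneg (by positivity)).2 fun i => ?_
    have h2 : vf (fun x => m + fld b t (x - t • m)) k i = ser b m t i k :=
      fr_field (hbi t ht i) (hbt t ht).2.1 k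
    show ‖vf (fun x => m + fld b t (x - t • m)) k i‖ ≤ _
    rw [h2]
    unfold ser
    have h3 : ‖(if k = 0 then ((m i : ℝ) : ℂ) else 0)‖ ≤ ‖m‖ := by
      split_ifs
      · rw [Complex.norm_real]
        exact norm_le_pi_norm m i
      · rw [norm_zero]
        exact norm_nonneg _
    have h4 : ‖ee k (-(t • m)) * b t k i‖ ≤ |C| * (1 + len k) ^ 2 := by
      rw [norm_mul, norm_ee, one_mul]
      refine (norm_le_pi_norm (b t k) i).trans ((hC t ht ht1 k).trans ?_)
      exact mul_le_mul_of_nonneg_right (le_abs_self C) (by positivity)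
    refine (norm_add_le _ _).trans ?_
    have h5 : ‖m‖ * 1 ≤ ‖m‖ * (1 + len k) ^ 2 := mul_le_mul_of_nonneg_left h1 (norm_nonneg _)
    rw [add_mul]
    linarith
  · -- the bound in time
    set Nb : ℝ → ℝ := fun t => ∑' k, ‖b t k‖ with hNb
    have hNb0 : ∀ t, 0 ≤ Nb t := fun t => tsum_nonneg fun _ => norm_nonneg _
    refine ⟨fun t => ‖m‖ + Nb t, fun t ht x i => ?_, ?_, ?_⟩
    · obtain ⟨hs, _, _⟩ := hbt t ht
      show |m i + fld b t (x - t • m) i| ≤ _
      refine (abs_add_le _ _).trans (add_le_add ?_ ?_)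
      · rw [← Real.norm_eq_abs]
        exact norm_le_pi_norm m i
      · refine (Complex.abs_re_le_norm _).trans ((norm_S_le (hbi t ht i) _).trans ?_)
        exact Summable.tsum_le_tsum (fun k => norm_le_pi_norm _ i) (hbi t ht i).norm hs
    · have h1 : Tendsto (fun t : ℝ => Real.sqrt t * ‖m‖) (𝓝[>] 0) (𝓝 0) := by
        have h2 : Tendsto (fun t : ℝ => Real.sqrt t * ‖m‖) (𝓝 0) (𝓝 (Real.sqrt 0 * ‖m‖)) :=
          (Real.continuous_sqrt.tendsto 0).mul_const _
        rw [Real.sqrt_zero, zero_mul] at h2
        exact h2.mono_left nhdsWithin_le_nhds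
      have h3 := h1.add hsq
      rw [add_zero] at h3
      refine h3.congr fun t => ?_
      ring
    · obtain ⟨K, hK, hq⟩ := gg_quad (gg_double hφ) ‖m‖
      have hc1 : ContinuousOn (fun t : ℝ => Real.sqrt t * (‖m‖ + Nb t)) (Ioi 0) :=
        Real.continuous_sqrt.continuousOn.mul (continuousOn_const.add (sum_norm_cont hb))
      have hc2 : ContinuousOn (fun t : ℝ => φ (Real.sqrt t * (‖m‖ + Nb t)) / t) (Ioi 0) := by
        refine ContinuousOn.div ((gg_cont hφ).comp hc1 fun t _ => ?_) continuousOn_id fun t ht => ?_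
        · exact mul_nonneg (Real.sqrt_nonneg _) (add_nonneg (norm_nonneg _) (hNb0 t))
        · exact (show (0 : ℝ) < t from ht).ne'
      have hmeas : AEStronglyMeasurable (fun t : ℝ => φ (Real.sqrt t * (‖m‖ + Nb t)) / t)
          (volume.restrict (Ioc 0 1)) :=
        (hc2.mono fun t ht => ht.1).aestronglyMeasurable measurableSet_Ioc
      have hdom : IntegrableOn (fun t => K * ‖m‖ ^ 2 + φ (2 * (Real.sqrt t * Nb t)) / t)
          (Ioc 0 1) := Integrable.add (integrableOn_const (by simp)) hLq
      refine Integrable.mono' hdom hmeas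
        ((ae_restrict_iff' measurableSet_Ioc).2 (Eventually.of_forall fun t ht => ?_))
      have ht0 : 0 < t := ht.1
      have hst : 0 ≤ Real.sqrt t := Real.sqrt_nonneg _
      have h0 : 0 ≤ Real.sqrt t * (‖m‖ + Nb t) :=
        mul_nonneg hst (add_nonneg (norm_nonneg _) (hNb0 t))
      rw [Real.norm_of_nonneg (div_nonneg (hφ.nonneg _ h0) ht0.le)]
      have h1 : φ (Real.sqrt t * (‖m‖ + Nb t))
          ≤ φ (2 * (Real.sqrt t * ‖m‖)) + φ (2 * (Real.sqrt t * Nb t)) := by
        rw [mul_add]
        exact gg_add hφ (mul_nonneg hst (norm_nonneg _)) (mul_nonneg hst (hNb0 t))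
      have h2 : φ (2 * (Real.sqrt t * ‖m‖)) ≤ K * ‖m‖ ^ 2 * t := by
        refine (hq (Real.sqrt t * ‖m‖) (mul_nonneg hst (norm_nonneg _)) ?_).trans (le_of_eq ?_)
        · exact mul_le_of_le_one_left (norm_nonneg _) (Real.sqrt_le_one.2 ht.2)
        · rw [mul_pow, Real.sq_sqrt ht0.le]
          ring
      calc φ (Real.sqrt t * (‖m‖ + Nb t)) / t
          ≤ (K * ‖m‖ ^ 2 * t + φ (2 * (Real.sqrt t * Nb t))) / t :=
            div_le_div_of_nonneg_right (by linarith) ht0.le
        _ = _ := by
            rw [add_div, mul_div_assoc, div_self ht0.ne', mul_one]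
  · -- attainment of the datum
    intro hcS i
    have hc'S : Summable fun k => ‖c' k‖ :=
      Summable.of_nonneg_of_le (fun _ => norm_nonneg _) hc'le hcS
    have hci : Summable fun k => c k i :=
      Summable.of_norm (Summable.of_nonneg_of_le (fun _ => norm_nonneg _)
        (fun k => norm_le_pi_norm (c k) i) hcS)
    set Cc : ℝ := ∑' k, ‖c' k‖ with hCc
    have hCc0 : 0 ≤ Cc := tsum_nonneg fun _ => norm_nonneg _
    set κ : ℝ := 2 * Real.pi * (3 * ‖m‖) with hκ
    have hκ0 : 0 ≤ κ := by positivity
    have hbound : ∀ t, 0 < t →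
        besG φ (fun x => (m + fld b t (x - t • m)) i - (S (fun k => c k i) x).re)
        ≤ besGC (fun x => φ (2 * x)) (fun k => ‖b t k - c' k‖)
          + ENNReal.ofReal (φ (2 * (κ * t * Cc))) := by
      intro t ht
      obtain ⟨hs, hh, hz⟩ := hbt t ht
      set e : K3 → ℂ := fun k => ee k (-(t • m)) with he
      have hd1 := ser_summable (m := m) (hbi t ht i)
      have hcont : Continuous fun x => (S (ser b m t i) x).re :=
        Complex.continuous_re.comp (S_continuous hd1)
      have hcont2 : Continuous fun x => (S (fun k => c k i) x).re :=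
        Complex.continuous_re.comp (S_continuous hci)
      have hfr : ∀ k, ‖fr (fun x => (m + fld b t (x - t • m)) i - (S (fun k => c k i) x).re) k‖
          ≤ ‖b t k - c' k‖ + ‖e k - 1‖ * ‖c' k‖ := by
        intro k
        have e2 : (fun x => (m + fld b t (x - t • m)) i - (S (fun k => c k i) x).re)
            = fun x => (S (ser b m t i) x).re - (S (fun k => c k i) x).re := by
          funext x
          rw [ser_eq (hbi t ht i)]
        rw [e2, h32.GD.fr_sub hcont hcont2, h32.GD.fr_S hd1 (ser_herm hh),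
          h32.GD.fr_S hci (fun k => hcH k i)]
        by_cases hk : k = 0
        · subst hk
          simp only [ser, if_true, hz, Pi.zero_apply, mul_zero, add_zero, hm0, sub_self, norm_zero]
          positivity
        · have e3 : ser b m t i k - c k i
              = e k * (b t k i - c' k i) + (e k - 1) * c' k i := by
            simp only [ser, if_neg hk, hc'k k hk]
            show 0 + e k * b t k i - c k i = _
            ring
          rw [e3]
          refine (norm_add_le _ _).trans (add_le_add ?_ ?_)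
          · rw [norm_mul, he, norm_ee, one_mul]
            exact norm_le_pi_norm (b t k - c' k) i
          · rw [norm_mul]
            exact mul_le_mul_of_nonneg_left (norm_le_pi_norm (c' k) i) (norm_nonneg _)
      have he1 : ∀ k, ‖e k - 1‖ ≤ κ * t * len k := by
        intro k
        refine (norm_ee_sub_one k _).trans ?_
        have h6 : ph k (-(t • m)) = -(t * ph k m) := by
          rw [← neg_smul, ph_smul]
          ring
        rw [h6, abs_neg, abs_mul, abs_of_pos ht]
        have h7 := abs_ph_le k m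
        calc 2 * Real.pi * (t * |ph k m|) ≤ 2 * Real.pi * (t * (3 * len k * ‖m‖)) := by
              gcongr
          _ = κ * t * len k := by rw [hκ]; ring
      have he2 : ∀ k, ‖e k - 1‖ ≤ 2 := by
        intro k
        refine (norm_sub_le _ _).trans ?_
        rw [he, norm_ee, norm_one]
        norm_num
      have hs1 : Summable fun k => ‖b t k - c' k‖ :=
        Summable.of_nonneg_of_le (fun _ => norm_nonneg _) (fun k => norm_sub_le _ _) (hs.add hc'S)
      have hs2 : Summable fun k => ‖e k - 1‖ * ‖c' k‖ :=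
        Summable.of_nonneg_of_le (fun _ => by positivity)
          (fun k => mul_le_mul_of_nonneg_right (he2 k) (norm_nonneg _)) (hc'S.mul_left 2)
      have hn2 : ∀ k, 0 ≤ ‖e k - 1‖ * ‖c' k‖ := fun k => by positivity
      refine (besG_le hφ (fun k => norm_nonneg _) hn2 hs1 hs2 hfr).trans ?_
      refine add_le_add le_rfl ?_
      refine (besGC_le (gg_double hφ) hn2 (by rw [hc'0, norm_zero]; ring) hs2).trans ?_
      refine ENNReal.ofReal_le_ofReal ?_
      have h8 : ∀ k, ‖e k - 1‖ * ‖c' k‖ / len k ≤ κ * t * ‖c' k‖ := by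
        intro k
        by_cases hk : k = 0
        · subst hk
          rw [hc'0]
          simp
        · have hl := h782.GD.len_pos hk
          rw [div_le_iff₀ hl]
          calc ‖e k - 1‖ * ‖c' k‖ ≤ (κ * t * len k) * ‖c' k‖ :=
                mul_le_mul_of_nonneg_right (he1 k) (norm_nonneg _)
            _ = _ := by ring
      have h9 : Summable fun k => ‖e k - 1‖ * ‖c' k‖ / len k :=
        Summable.of_nonneg_of_le (fun k => div_nonneg (hn2 k) (h782.GD.len_nonneg k)) h8
          (hc'S.mul_left _)
      have h10 : 0 ≤ ∑' k, ‖e k - 1‖ * ‖c' k‖ / len k :=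
        tsum_nonneg fun k => div_nonneg (hn2 k) (h782.GD.len_nonneg k)
      refine gg_mono hφ (by linarith) ?_
      refine mul_le_mul_of_nonneg_left ?_ zero_le_two
      refine (Summable.tsum_le_tsum h8 h9 (hc'S.mul_left _)).trans (le_of_eq ?_)
      rw [tsum_mul_left]
    have hlim2 : Tendsto (fun t : ℝ => ENNReal.ofReal (φ (2 * (κ * t * Cc)))) (𝓝[>] 0) (𝓝 0) := by
      have h1 : Tendsto (fun t : ℝ => 2 * (κ * t * Cc)) (𝓝[>] 0) (𝓝[≥] 0) := by
        refine tendsto_nhdsWithin_iff.2 ⟨?_, ?_⟩
        · have h2 : Tendsto (fun t : ℝ => 2 * (κ * t * Cc)) (𝓝 0) (𝓝 (2 * (κ * 0 * Cc))) :=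
            ((tendsto_id.const_mul κ).mul_const Cc).const_mul 2
          rw [mul_zero, zero_mul, mul_zero] at h2
          exact h2.mono_left nhdsWithin_le_nhds
        · filter_upwards [self_mem_nhdsWithin] with t ht
          have ht0 : (0 : ℝ) < t := ht
          exact mul_nonneg zero_le_two (mul_nonneg (mul_nonneg hκ0 ht0.le) hCc0)
      have h3 := ENNReal.tendsto_ofReal ((gg_tendsto hφ).comp h1)
      rw [ENNReal.ofReal_zero] at h3
      exact h3
    have hlim := (hbes hc'S).add hlim2
    rw [add_zero] at hlim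
    refine tendsto_of_tendsto_of_tendsto_of_le_of_le' tendsto_const_nhds hlim
      (Eventually.of_forall fun _ => zero_le) ?_
    filter_upwards [self_mem_nhdsWithin] with t ht
    exact hbound t ht
  · -- closeness to the target
    intro t ht x i
    have ht0 : 0 < t := hδ.trans_le ht
    obtain ⟨hs, _, _⟩ := hbt t ht0
    set y : V := x - t • m with hy
    have hspU : SP (fun z => U' t z i) :=
      (hUs (t + 1)).sp (t := t) ⟨ht0.le, by linarith⟩ i
    have hUy : U t x i = m i + U' t y i := by
      simp only [hU', Pi.add_apply, Pi.neg_apply, hy]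
      have : x - t • m - t • (-m) = x := by
        rw [smul_neg]
        abel
      rw [this]
      ring
    have hfrU : Summable (fr (fun z => U' t z i)) := (rap_fr hspU).summable
    have hUre : U' t y i = (S (fr (fun z => U' t z i)) y).re := by
      rw [S_fr hspU, Complex.ofReal_re]
    show |(m + fld b t y) i - U t x i| ≤ δ
    have e1 : (m + fld b t y) i - U t x i
        = (S (fun k => b t k i - fr (fun z => U' t z i) k) y).re := by
      rw [hUy, Pi.add_apply, hUre]
      have e2 : S (fun k => b t k i - fr (fun z => U' t z i) k) y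
          = S (fun k => b t k i) y - S (fr (fun z => U' t z i)) y := by
        unfold S
        rw [← (summable_term (hbi t ht0 i) y).tsum_sub (summable_term hfrU y)]
        exact tsum_congr fun k => by ring
      rw [e2, Complex.sub_re]
      show m i + (S (fun k => b t k i) y).re - _ = _
      ring
    rw [e1]
    have hsd : Summable fun k => b t k i - fr (fun z => U' t z i) k := (hbi t ht0 i).sub hfrU
    refine (Complex.abs_re_le_norm _).trans ((norm_S_le hsd _).trans ?_)
    refine Real.tsum_le_of_sum_le (fun _ => norm_nonneg _) fun A => ?_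
    refine (Finset.sum_le_sum fun k _ => ?_).trans (hclose t ht A)
    exact norm_le_pi_norm (b t k - vf (U' t) k) i

end Pool.Agent.Run7.h811.WQ
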