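import Pool.Agent.Run7.h811.WQ.NecA3

/-!
Piece NecA of the project WQ, part 4: the estimates and the end.
-/

set_option autoImplicit false

open MeasureTheory Set Filter Topology
open scoped ContDiff ENNReal ComplexConjugate

namespace Pool.Agent.Run7.h811.WQ

open H459R3.NS Pool.Agent.Run7 Pool.Agent.Run7.h782.GD Pool.Agent.Run7.h782.GS
open Pool.Agent.Run7.h782.WS Pool.Agent.Run7.h744.GS Pool.Agent.Run7.h744.WS
open Pool.Agent.Run7.h969.WS Pool.Agent.Run7.h811.WS Pool.Agent.Run7.h782.WQ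

theorem enorm_re (r : ℝ) : ‖((r : ℝ) : ℂ)‖ₑ = ‖r‖ₑ := by
  rw [enorm_eq_nnnorm, enorm_eq_nnnorm, Complex.nnnorm_real]

theorem abs_enorm (a : ℝ) {q : ℝ} (hq : 0 ≤ q) : ENNReal.ofReal (|a| ^ q) = ‖a‖ₑ ^ q := by
  rw [← ENNReal.ofReal_rpow_of_nonneg (abs_nonneg a) hq, ← Real.enorm_eq_ofReal_abs]

/-- The derivatives in space of a function of space and time. -/
theorem pd_joint {w : ℝ → V → ℝ} (hw : ContDiffOn ℝ ∞ (fun z : ℝ × V => w z.1 z.2)
    (Ioi 0 ×ˢ univ)) {t : ℝ} (ht : 0 < t) (j : Fin 3) (x : V) :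
    pd j (w t) x = fderiv ℝ (fun z : ℝ × V => w z.1 z.2) (t, x) ((0 : ℝ), (Pi.single j 1 : V)) := by
  have h1 : HasFDerivAt (fun y : V => ((t, y) : ℝ × V)) (ContinuousLinearMap.inr ℝ ℝ V) x :=
    hasFDerivAt_prodMk_right t x
  have h2 : HasFDerivAt (w t) ((fderiv ℝ (fun z : ℝ × V => w z.1 z.2) (t, x)).comp
      (ContinuousLinearMap.inr ℝ ℝ V)) x := (_root_.Run7.h475.WS.has_fd hw ht x).comp x h1
  unfold pd
  rw [h2.fderiv]
  rfl

theorem pd_cont' {w : ℝ → V → ℝ} (hw : ContDiffOn ℝ ∞ (fun z : ℝ × V => w z.1 z.2)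
    (Ioi 0 ×ˢ univ)) (j : Fin 3) :
    ContinuousOn (fun z : ℝ × V => pd j (w z.1) z.2) (Ioi 0 ×ˢ univ) := by
  refine (_root_.Run7.h475.WS.dir_cont hw ((0 : ℝ), (Pi.single j 1 : V))).congr ?_
  rintro ⟨t, x⟩ ⟨ht, -⟩
  exact pd_joint hw ht j x

theorem heat_pdc (hH : StmHeatK) {g : V → ℝ} (hg : BM g) (j : Fin 3) :
    ContinuousOn (fun z : ℝ × V => pd j (heat z.1 g) z.2) (Ioi 0 ×ˢ univ) :=
  pd_cont' (w := fun t => heat t g) (hH.1 g hg) j

/-- The square function. -/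
noncomputable def Phi (p : ℝ) (g : V → ℝ) (τ : ℝ) : ℝ :=
  (∫ x in cube, ∑ j, |pd j (heat τ g) x| ^ p) ^ (2 / p)

theorem phi_cont (hH : StmHeatK) {p : ℝ} (hp : 0 < p) {g : V → ℝ} (hg : BM g) :
    ContinuousOn (Phi p g) (Ioi 0) := by
  refine ContinuousOn.rpow_const ?_ fun t _ => Or.inr (by positivity)
  refine h980.WQ.slice_cont (f := fun z : ℝ × V => ∑ j, |pd j (heat z.1 g) z.2| ^ p) ?_
  exact continuousOn_finsetSum _ fun j _ =>
    (heat_pdc hH hg j).abs.rpow_const fun _ _ => Or.inr hp.le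

theorem phi_nonneg (p : ℝ) (g : V → ℝ) (τ : ℝ) : 0 ≤ Phi p g τ :=
  Real.rpow_nonneg (integral_nonneg fun _ => Finset.sum_nonneg fun _ _ =>
    Real.rpow_nonneg (abs_nonneg _) _) _

variable {ν T : ℝ} {w : ℝ → V → ℝ}

theorem phi_int (hH : StmHeatK) {p C : ℝ} (hp : 0 < p)
    (hC : ∀ g, BM g → ∀ a b : ℝ, 0 < a → a ≤ b →
      ∫ t in a..b, Phi p g t ≤ C * (∫ x in cube, |g x| ^ p) ^ (2 / p))
    (hν : 0 < ν) (hT : 0 < T) {s : ℝ} (hs : 0 < s) {g : V → ℝ} (hg : BM g) :
    ∫⁻ t in Ioo 0 T, ENNReal.ofReal (Phi p g (ν * t + s))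
      ≤ ENNReal.ofReal (ν⁻¹ * (C * (∫ x in cube, |g x| ^ p) ^ (2 / p))) := by
  have hc : ContinuousOn (fun t => Phi p g (ν * t + s)) (Icc 0 T) := by
    refine (phi_cont hH hp hg).comp (by fun_prop) fun t ht => ?_
    show 0 < ν * t + s
    have := mul_nonneg hν.le ht.1
    linarith
  have hi : IntegrableOn (fun t => Phi p g (ν * t + s)) (Icc 0 T) := hc.integrableOn_Icc
  have hi2 : Integrable (fun t => Phi p g (ν * t + s)) (volume.restrict (Ioo 0 T)) :=
    hi.mono_set Ioo_subset_Icc_self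
  rw [← ofReal_integral_eq_lintegral_ofReal hi2
    (Eventually.of_forall fun t => phi_nonneg p g _)]
  refine ENNReal.ofReal_le_ofReal ?_
  rw [← integral_Ioc_eq_integral_Ioo, ← intervalIntegral.integral_of_le hT.le,
    intervalIntegral.integral_comp_mul_add _ hν.ne' s, smul_eq_mul]
  refine mul_le_mul_of_nonneg_left ?_ (by positivity)
  rw [mul_zero, zero_add]
  refine hC g hg s (ν * T + s) hs ?_
  have := mul_pos hν hT
  linarith

/-- The estimate of the dual pairing. -/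
theorem est (hH : StmHeatK) {p q C : ℝ} (hpq : q.HolderConjugate p)
    (hC : ∀ g, BM g → ∀ a b : ℝ, 0 < a → a ≤ b →
      ∫ t in a..b, Phi p g t ≤ C * (∫ x in cube, |g x| ^ p) ^ (2 / p))
    (hν : 0 < ν) (hT : 0 < T) (hw : W2 T w) {χ : ℝ → ℝ} (hχ : Continuous χ) {M : ℝ}
    (hM : ∀ t ∈ Icc 0 T, ‖χ t‖ ≤ M) (j : Fin 3) {s : ℝ} (hs : 0 < s) {g : V → ℝ} (hg : BM g) :
    ‖∫ x in cube, (S (gs (gam ν T w χ j) s) x).re * g x‖ₑ ≤ ENNReal.ofReal M
      * ((∫⁻ t in Ioo 0 T, (∫⁻ x in cube, ENNReal.ofReal (|w t x| ^ q)) ^ (2 / q)) ^ ((1 : ℝ) / 2)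
      * (ENNReal.ofReal (ν⁻¹ * (C * (∫ x in cube, |g x| ^ p) ^ (2 / p)))) ^ ((1 : ℝ) / 2)) := by
  have hp0 : 0 < p := hpq.symm.pos
  have hq0 : 0 < q := hpq.pos
  have hDc := heat_pdc hH hg j
  have hDt : ∀ t, 0 ≤ t → Continuous fun x => pd j (heat (ν * t + s) g) x := by
    intro t ht
    have h0 : 0 < ν * t + s := by positivity
    have h1 := hDc.comp (f := fun x : V => ((ν * t + s, x) : ℝ × V)) (s := univ)
      (by fun_prop) fun x _ => ⟨h0, mem_univ _⟩
    exact continuousOn_univ.1 h1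
  have hDm : AEStronglyMeasurable (fun z : ℝ × V => pd j (heat (ν * z.1 + s) g) z.2)
      ((volume.restrict (Ioo 0 T)).prod (volume.restrict cube)) := by
    rw [Measure.prod_restrict]
    have h1 : ContinuousOn (fun z : ℝ × V => pd j (heat (ν * z.1 + s) g) z.2)
        (Ioo 0 T ×ˢ cube) := by
      refine hDc.comp (f := fun z : ℝ × V => ((ν * z.1 + s, z.2) : ℝ × V)) (by fun_prop) ?_
      rintro ⟨t, x⟩ ⟨ht, -⟩
      have := ht.1
      exact ⟨show 0 < ν * t + s by positivity, mem_univ _⟩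
    exact h1.aestronglyMeasurable (measurableSet_Ioo.prod measurableSet_Icc)
  set a : ℝ → ℝ≥0∞ := fun t => (∫⁻ x in cube, ‖w t x‖ₑ ^ q) ^ (1 / q) with ha
  set b : ℝ → ℝ≥0∞ := fun t => (∫⁻ x in cube, ‖pd j (heat (ν * t + s) g) x‖ₑ ^ p) ^ (1 / p) with hb
  have ham : AEMeasurable a (volume.restrict (Ioo 0 T)) :=
    (((w2_prod_meas hw).enorm.pow_const q).lintegral_prod_right').pow_const _
  have hbm : AEMeasurable b (volume.restrict (Ioo 0 T)) :=
    ((hDm.enorm.pow_const p).lintegral_prod_right').pow_const _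
  -- Hoelder in space
  have h1 : ‖∫ x in cube, (S (gs (gam ν T w χ j) s) x).re * g x‖ₑ
      ≤ ∫⁻ t in Ioo 0 T, ENNReal.ofReal M * (a * b) t := by
    rw [← enorm_re, duality hν hT hw hχ j hs hg]
    refine (enorm_integral_le_lintegral_enorm _).trans (lintegral_mono_ae ?_)
    filter_upwards [w2_slice hw, ae_restrict_mem measurableSet_Ioo] with t ht1 ht2
    rw [enorm_re, enorm_neg, enorm_mul]
    refine mul_le_mul' ?_ ?_
    · rw [Real.enorm_eq_ofReal_abs, ← Real.norm_eq_abs]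
      exact ENNReal.ofReal_le_ofReal (hM t ⟨ht2.1.le, ht2.2.le⟩)
    · refine (enorm_integral_le_lintegral_enorm _).trans ?_
      have h2 : ∫⁻ x in cube, ‖pd j (heat (ν * t + s) g) x * w t x‖ₑ
          = ∫⁻ x in cube, ((fun x => ‖w t x‖ₑ) * fun x => ‖pd j (heat (ν * t + s) g) x‖ₑ) x := by
        refine lintegral_congr fun x => ?_
        rw [enorm_mul, mul_comm]
        rfl
      rw [h2]
      exact ENNReal.lintegral_mul_le_Lp_mul_Lq _ hpq ht1.1.enorm
        (hDt t ht2.1.le).aestronglyMeasurable.enorm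
  refine h1.trans ?_
  rw [lintegral_const_mul' _ _ ENNReal.ofReal_ne_top]
  refine mul_le_mul' le_rfl ?_
  refine (ENNReal.lintegral_mul_le_Lp_mul_Lq _ Real.HolderConjugate.two_two ham hbm).trans ?_
  refine mul_le_mul' (ENNReal.rpow_le_rpow (le_of_eq ?_) (by norm_num))
    (ENNReal.rpow_le_rpow ?_ (by norm_num))
  · refine lintegral_congr fun t => ?_
    simp only [ha]
    rw [← ENNReal.rpow_mul]
    have e1 : 1 / q * 2 = 2 / q := by ring
    rw [e1]
    congr 1
    exact lintegral_congr fun x => (abs_enorm _ hq0.le).symm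
  · refine le_trans ?_ (phi_int hH hp0 hC hν hT hs hg)
    refine lintegral_mono_ae ?_
    filter_upwards [ae_restrict_mem measurableSet_Ioo] with t ht
    have ht0 : 0 ≤ t := ht.1.le
    have h0 : 0 < ν * t + s := by positivity
    have hDc2 : ∀ i : Fin 3, Continuous fun x => |pd i (heat (ν * t + s) g) x| ^ p := by
      intro i
      have h1 := (heat_pdc hH hg i).comp (f := fun x : V => ((ν * t + s, x) : ℝ × V))
        (s := univ) (by fun_prop) fun x _ => ⟨h0, mem_univ _⟩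
      have h2 : Continuous fun x => pd i (heat (ν * t + s) g) x := continuousOn_univ.1 h1
      exact h2.abs.rpow_const fun x => Or.inr hp0.le
    simp only [hb]
    rw [← ENNReal.rpow_mul]
    have e1 : 1 / p * 2 = 2 / p := by ring
    rw [e1]
    unfold Phi
    rw [← ENNReal.ofReal_rpow_of_nonneg (integral_nonneg fun x => Finset.sum_nonneg fun j _ =>
      Real.rpow_nonneg (abs_nonneg _) _) (by positivity)]
    refine ENNReal.rpow_le_rpow ?_ (by positivity)
    have h3 : ∫⁻ x in cube, ‖pd j (heat (ν * t + s) g) x‖ₑ ^ p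
        = ENNReal.ofReal (∫ x in cube, |pd j (heat (ν * t + s) g) x| ^ p) := by
      rw [ofReal_integral_eq_lintegral_ofReal (integrableOn_cube (hDc2 j))
        (Eventually.of_forall fun x => Real.rpow_nonneg (abs_nonneg _) _)]
      exact lintegral_congr fun x => (abs_enorm _ hp0.le).symm
    rw [h3]
    refine ENNReal.ofReal_le_ofReal ?_
    refine integral_mono (integrableOn_cube (hDc2 j))
      (integrableOn_cube (continuous_finsetSum _ fun i _ => hDc2 i)) fun x => ?_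
    exact Finset.single_le_sum (f := fun i => |pd i (heat (ν * t + s) g) x| ^ p)
      (fun i _ => Real.rpow_nonneg (abs_nonneg _) _) (Finset.mem_univ j)

/-- Uniform bounds of the regularisations. -/
theorem reg_bd (hH : StmHeatK) (hS : StmSqF) (hν : 0 < ν) (hT : 0 < T) (hw : W2 T w)
    {χ : ℝ → ℝ} (hχ : Continuous χ) (j : Fin 3) {q : ℝ} (hq : 2 ≤ q)
    (hN : ∫⁻ t in Ioo 0 T, (∫⁻ x in cube, ENNReal.ofReal (|w t x| ^ q)) ^ (2 / q) ≠ ⊤) :
    ∃ K : ℝ, ∀ s, 0 < s → ∫⁻ x in cube, ‖(S (gs (gam ν T w χ j) s) x).re‖ₑ ^ q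
      ≤ ENNReal.ofReal K := by
  set p : ℝ := q / (q - 1) with hp
  have hq1 : 1 < q := by linarith
  have hpq : q.HolderConjugate p := Real.HolderConjugate.conjExponent hq1
  have hp1 : 1 < p := hpq.symm.lt
  have hp2 : p ≤ 2 := by
    rw [hp, div_le_iff₀ (by linarith)]
    linarith
  have hp0 : 0 < p := by linarith
  have hq0 : 0 < q := by linarith
  obtain ⟨C, hC0, hC⟩ := hS p hp1 hp2
  obtain ⟨M, hM⟩ : ∃ M, ∀ t ∈ Icc 0 T, ‖χ t‖ ≤ M :=
    isCompact_Icc.exists_bound_of_continuousOn hχ.continuousOn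
  have hM0 : 0 ≤ M := (norm_nonneg _).trans (hM 0 ⟨le_rfl, hT.le⟩)
  set N := ∫⁻ t in Ioo 0 T, (∫⁻ x in cube, ENNReal.ofReal (|w t x| ^ q)) ^ (2 / q) with hNd
  set N₀ : ℝ := N.toReal with hN0
  have hN1 : N = ENNReal.ofReal N₀ := (ENNReal.ofReal_toReal hN).symm
  have hN2 : 0 ≤ N₀ := ENNReal.toReal_nonneg
  set K : ℝ := M * (N₀ ^ ((1 : ℝ) / 2) * (ν⁻¹ * C) ^ ((1 : ℝ) / 2)) with hK
  have hK0 : 0 ≤ K := by positivity
  refine ⟨K ^ q, fun s hs => ?_⟩
  set f : V → ℝ := fun x => (S (gs (gam ν T w χ j) s) x).re with hf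
  have hfc : Continuous f := Complex.continuous_re.comp
    (S_continuous (gs_summable (bdd_of_sq (gam_sq hν hT hw hχ j)) hs))
  set g : V → ℝ := fun x => |f x| ^ (q - 2) * f x with hg
  have hgc : Continuous g :=
    (hfc.abs.rpow_const fun x => Or.inr (by linarith)).mul hfc
  have hgb : BM g := by
    refine ⟨hgc.aestronglyMeasurable, ?_⟩
    obtain ⟨M', hM'⟩ := (isCompact_Icc : IsCompact cube).exists_bound_of_continuousOn
      hgc.continuousOn
    exact ⟨M', hM'⟩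
  have e1 : ∀ x, f x * g x = |f x| ^ q := by
    intro x
    simp only [hg]
    rcases eq_or_ne (f x) 0 with h0 | h0
    · rw [h0, abs_zero, Real.zero_rpow hq0.ne', zero_mul]
    · have h1 : 0 < |f x| := abs_pos.2 h0
      have h2 : f x * (|f x| ^ (q - 2) * f x) = |f x| ^ (q - 2) * |f x| ^ (2 : ℝ) := by
        rw [Real.rpow_two, sq_abs]
        ring
      rw [h2, ← Real.rpow_add h1]
      congr 1
      ring
  have e2 : ∀ x, |g x| ^ p = |f x| ^ q := by
    intro x
    simp only [hg]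
    rcases eq_or_ne (f x) 0 with h0 | h0
    · rw [h0, mul_zero, abs_zero, Real.zero_rpow hq0.ne', Real.zero_rpow hp0.ne']
    · have h1 : 0 < |f x| := abs_pos.2 h0
      have h2 : |(|f x| ^ (q - 2) * f x)| = |f x| ^ (q - 1) := by
        rw [abs_mul, abs_of_nonneg (Real.rpow_nonneg h1.le _)]
        nth_rewrite 2 [← Real.rpow_one |f x|]
        rw [← Real.rpow_add h1]
        congr 1
        ring
      rw [h2, ← Real.rpow_mul h1.le]
      congr 1
      rw [hp]
      field_simp [show q - 1 ≠ 0 by linarith]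
  set A : ℝ := ∫ x in cube, |f x| ^ q with hA
  have hA0 : 0 ≤ A := integral_nonneg fun x => Real.rpow_nonneg (abs_nonneg _) _
  have h1 := est hH hpq hC hν hT hw hχ hM j hs hgb
  have h2 : ∫ x in cube, (S (gs (gam ν T w χ j) s) x).re * g x = A := by
    refine integral_congr_ae (Eventually.of_forall fun x => ?_)
    exact e1 x
  have h3 : ∫ x in cube, |g x| ^ p = A := by
    refine integral_congr_ae (Eventually.of_forall fun x => ?_)
    exact e2 x
  rw [h2, h3, ← hNd, hN1] at h1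
  have h4 : A ≤ K * A ^ (1 / p) := by
    have h5 : 0 ≤ ν⁻¹ * (C * A ^ (2 / p)) := by positivity
    rw [ENNReal.ofReal_rpow_of_nonneg hN2 (by norm_num),
      ENNReal.ofReal_rpow_of_nonneg h5 (by norm_num),
      ← ENNReal.ofReal_mul (by positivity), ← ENNReal.ofReal_mul hM0,
      Real.enorm_eq_ofReal_abs, abs_of_nonneg hA0,
      ENNReal.ofReal_le_ofReal_iff (by positivity)] at h1
    refine h1.trans (le_of_eq ?_)
    have h6 : (ν⁻¹ * (C * A ^ (2 / p))) ^ ((1 : ℝ) / 2)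
        = (ν⁻¹ * C) ^ ((1 : ℝ) / 2) * A ^ (1 / p) := by
      rw [← mul_assoc, Real.mul_rpow (by positivity) (by positivity), ← Real.rpow_mul hA0]
      congr 2
      ring
    rw [h6, hK]
    ring
  have h5 : A ≤ K ^ q := by
    rcases hA0.eq_or_lt with h0 | h0
    · rw [← h0]
      positivity
    have h6 : A ^ (1 / q) ≤ K := by
      have h7 : A = A ^ (1 / q) * A ^ (1 / p) := by
        rw [← Real.rpow_add h0]
        have h8 := hpq.inv_add_inv_eq_one
        rw [one_div, one_div, h8, Real.rpow_one]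
      have h8 : 0 < A ^ (1 / p) := Real.rpow_pos_of_pos h0 _
      nth_rewrite 1 [h7] at h4
      exact le_of_mul_le_mul_right h4 h8
    calc A = (A ^ (1 / q)) ^ q := by
          rw [← Real.rpow_mul hA0, one_div, inv_mul_cancel₀ hq0.ne', Real.rpow_one]
      _ ≤ K ^ q := Real.rpow_le_rpow (Real.rpow_nonneg hA0 _) h6 hq0.le
  have h6 : ∫⁻ x in cube, ‖f x‖ₑ ^ q = ENNReal.ofReal A := by
    rw [hA, ofReal_integral_eq_lintegral_ofReal
      (integrableOn_cube (hfc.abs.rpow_const fun x => Or.inr hq0.le))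
      (Eventually.of_forall fun x => Real.rpow_nonneg (abs_nonneg _) _)]
    exact lintegral_congr fun x => (abs_enorm _ hq0.le).symm
  show ∫⁻ x in cube, ‖f x‖ₑ ^ q ≤ _
  rw [h6]
  exact ENNReal.ofReal_le_ofReal h5

/-- **Piece NecA.** -/
theorem necA (hH : StmHeatK) (hS : StmSqF) : StmNecA := by
  intro ν T hν hT w hw χ hχ j
  have := cube_finite
  obtain ⟨s, f, hs, hper, hf2, hfr, hae⟩ := rf_exists (gam_herm (ν := ν) (T := T) (w := w) χ j)
    (gam_sq hν hT hw hχ j)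
  refine ⟨f, hper, hf2.integrable (by norm_num), hfr, fun q hq hN => ?_⟩
  have hq0 : 0 < q := by linarith
  obtain ⟨K, hK⟩ := reg_bd hH hS hν hT hw hχ j hq hN
  have hc : ∀ n, Continuous fun x => (S (gs (gam ν T w χ j) (s n)) x).re := fun n =>
    Complex.continuous_re.comp
      (S_continuous (gs_summable (bdd_of_sq (gam_sq hν hT hw hχ j)) (hs n)))
  have h1 : ∫⁻ x in cube, ‖f x‖ₑ ^ q ≤ ENNReal.ofReal K := by
    have h2 : ∫⁻ x in cube, ‖f x‖ₑ ^ q
        = ∫⁻ x in cube, liminf (fun n => ‖(S (gs (gam ν T w χ j) (s n)) x).re‖ₑ ^ q) atTop := by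
      refine lintegral_congr_ae ?_
      filter_upwards [hae] with x hx
      have h3 : Tendsto (fun n => ‖(S (gs (gam ν T w χ j) (s n)) x).re‖ₑ ^ q) atTop
          (𝓝 (‖f x‖ₑ ^ q)) :=
        ((ENNReal.continuous_rpow_const (y := q)).tendsto _).comp
          ((continuous_enorm.tendsto _).comp hx)
      exact h3.liminf_eq.symm
    rw [h2]
    refine (lintegral_liminf_le fun n => ?_).trans ?_
    · exact ((hc n).enorm.measurable).pow_const q
    · exact (liminf_le_liminf (Eventually.of_forall fun n => hK (s n) (hs n))).trans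
        (le_of_eq (liminf_const _))
  refine ⟨(hf2.1.norm.aemeasurable.pow_const q).aestronglyMeasurable, ?_⟩
  refine lt_of_le_of_lt (le_of_eq ?_) (h1.trans_lt ENNReal.ofReal_lt_top)
  refine lintegral_congr fun x => ?_
  rw [← abs_enorm _ hq0.le, Real.enorm_eq_ofReal_abs,
    abs_of_nonneg (Real.rpow_nonneg (abs_nonneg _) _)]

end Pool.Agent.Run7.h811.WQ
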