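import Pool.Agent.Run7.h811.WQ.NecA1

/-!
Piece NecA of the project WQ, part 2: the coefficients.
-/

set_option autoImplicit false

open MeasureTheory Set Filter Topology
open scoped ContDiff ENNReal ComplexConjugate

namespace Pool.Agent.Run7.h811.WQ

open H459R3.NS Pool.Agent.Run7 Pool.Agent.Run7.h782.GD Pool.Agent.Run7.h782.GS
open Pool.Agent.Run7.h782.WS Pool.Agent.Run7.h744.GS Pool.Agent.Run7.h744.WS
open Pool.Agent.Run7.h969.WS Pool.Agent.Run7.h811.WS Pool.Agent.Run7.h782.WQ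

theorem int_ee_mul {h : V → ℝ} (hh : Integrable h (volume.restrict cube)) (k : K3) :
    Integrable (fun x => ee k x * ((h x : ℝ) : ℂ)) (volume.restrict cube) :=
  hh.ofReal.bdd_mul (c := 1) (ee_continuous _).aestronglyMeasurable
    (Eventually.of_forall fun x => (norm_ee _ _).le)

/-- Bessel's inequality on the cell. -/
theorem bessel_cube {h : V → ℝ} (hh : MemLp h 2 (volume.restrict cube)) (A : Finset K3) :
    ∑ k ∈ A, ‖fr h k‖ ^ 2 ≤ ∫ x in cube, h x ^ 2 := by
  classical
  have := cube_finite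
  have hi : Integrable h (volume.restrict cube) := hh.integrable (by norm_num)
  have hsq : Integrable (fun x => h x ^ 2) (volume.restrict cube) := hh.integrable_sq
  set P : V → ℂ := fun x => ∑ k ∈ A, fr h k * ee k x with hP
  set a : K3 → ℂ := fun k => if k ∈ A then fr h k else 0 with ha
  have hsum : Summable a := summable_of_ne_finset_zero (s := A) fun k hk => if_neg hk
  have hPS : ∀ x, P x = S a x := by
    intro x
    unfold S
    rw [tsum_eq_sum (s := A)]
    · refine Finset.sum_congr rfl fun k hk => ?_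
      simp only [ha]
      rw [if_pos hk]
    · intro k hk
      simp only [ha]
      rw [if_neg hk, zero_mul]
  have hPc : Continuous P := by
    refine continuous_finsetSum _ fun k _ => continuous_const.mul (ee_continuous k)
  set X : ℝ := ∑ k ∈ A, ‖fr h k‖ ^ 2 with hX
  have h1 : ∫ x in cube, ‖P x‖ ^ 2 = X := by
    simp_rw [hPS]
    rw [integral_norm_sq hsum, n2_sq, tsum_eq_sum (s := A)]
    · refine Finset.sum_congr rfl fun k hk => ?_
      simp only [ha]
      rw [if_pos hk]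
    · intro k hk
      simp only [ha]
      rw [if_neg hk, norm_zero, zero_pow two_ne_zero]
  have h2 : ∫ x in cube, h x * (P x).re = X := by
    have e1 : ∀ x, h x * (P x).re = (∑ k ∈ A, fr h k * (ee k x * ((h x : ℝ) : ℂ))).re := by
      intro x
      have e2 : ∑ k ∈ A, fr h k * (ee k x * ((h x : ℝ) : ℂ)) = ((h x : ℝ) : ℂ) * P x := by
        simp only [hP]
        rw [Finset.mul_sum]
        exact Finset.sum_congr rfl fun k _ => by ring
      rw [e2, Complex.re_ofReal_mul]
    simp_rw [e1]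
    have e3 : ∫ x in cube, (∑ k ∈ A, fr h k * (ee k x * ((h x : ℝ) : ℂ))).re
        = (∫ x in cube, ∑ k ∈ A, fr h k * (ee k x * ((h x : ℝ) : ℂ))).re :=
      integral_re (integrable_finsetSum A fun k _ => (int_ee_mul hi k).const_mul _)
    rw [e3, integral_finsetSum A fun k _ => (int_ee_mul hi k).const_mul _, Complex.re_sum]
    refine Finset.sum_congr rfl fun k _ => ?_
    rw [integral_const_mul]
    have e4 : ∫ x in cube, ee k x * ((h x : ℝ) : ℂ) = conj (fr h k) := by
      rw [← h32.GD.fr_neg]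
      unfold fr fc
      rw [neg_neg]
    rw [e4, Complex.mul_conj, Complex.ofReal_re, Complex.normSq_eq_norm_sq]
  have hPre : Integrable (fun x => h x * (P x).re) (volume.restrict cube) := by
    obtain ⟨M, hM⟩ : ∃ M, ∀ x ∈ cube, ‖(P x).re‖ ≤ M :=
      (isCompact_Icc : IsCompact cube).exists_bound_of_continuousOn
        (Complex.continuous_re.comp hPc).continuousOn
    exact hi.mul_bdd (c := M) (Complex.continuous_re.comp hPc).aestronglyMeasurable
      ((ae_restrict_iff' measurableSet_Icc).2 (Eventually.of_forall hM))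
  have hPn : Integrable (fun x => ‖P x‖ ^ 2) (volume.restrict cube) :=
    integrableOn_cube (hPc.norm.pow 2)
  have h3 : 0 ≤ ∫ x in cube, (h x ^ 2 - 2 * (h x * (P x).re) + ‖P x‖ ^ 2) := by
    refine integral_nonneg fun x => ?_
    show 0 ≤ h x ^ 2 - 2 * (h x * (P x).re) + ‖P x‖ ^ 2
    have h4 : (P x).re ^ 2 ≤ ‖P x‖ ^ 2 := by
      rw [← sq_abs]
      exact pow_le_pow_left₀ (abs_nonneg _) (Complex.abs_re_le_norm _) 2
    nlinarith [sq_nonneg (h x - (P x).re)]
  have hs1 : Integrable (fun x => h x ^ 2 - 2 * (h x * (P x).re)) (volume.restrict cube) :=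
    hsq.sub (hPre.const_mul 2)
  rw [integral_add hs1 hPn, integral_sub hsq (hPre.const_mul 2), integral_const_mul, h1, h2] at h3
  linarith

variable {ν T : ℝ} {w : ℝ → V → ℝ}

/-- The measure on space-time. -/
theorem w2_prod_meas (h : W2 T w) : AEStronglyMeasurable (fun z : ℝ × V => w z.1 z.2)
    ((volume.restrict (Ioo 0 T)).prod (volume.restrict cube)) := by
  have h1 := h.meas
  rwa [Measure.volume_eq_prod, ← Measure.prod_restrict] at h1

theorem w2_prod_sq (h : W2 T w) : Integrable (fun z : ℝ × V => w z.1 z.2 ^ 2)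
    ((volume.restrict (Ioo 0 T)).prod (volume.restrict cube)) := by
  have h1 := h.sq
  rwa [IntegrableOn, Measure.volume_eq_prod, ← Measure.prod_restrict] at h1

theorem w2_slice (h : W2 T w) : ∀ᵐ t ∂(volume.restrict (Ioo 0 T)),
    MemLp (w t) 2 (volume.restrict cube) := by
  have h1 := (w2_prod_meas h).prodMk_left
  have h2 := (w2_prod_sq h).prod_right_ae
  filter_upwards [h1, h2] with t ht1 ht2
  exact (memLp_two_iff_integrable_sq ht1).2 ht2

theorem w2_fr_meas (h : W2 T w) (k : K3) :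
    AEStronglyMeasurable (fun t => fr (w t) k) (volume.restrict (Ioo 0 T)) := by
  have h1 : AEStronglyMeasurable (fun z : ℝ × V => ee (-k) z.2 * ((w z.1 z.2 : ℝ) : ℂ))
      ((volume.restrict (Ioo 0 T)).prod (volume.restrict cube)) :=
    (((ee_continuous (-k)).comp continuous_snd).aestronglyMeasurable).mul
      (Complex.continuous_ofReal.comp_aestronglyMeasurable (w2_prod_meas h))
  exact h1.integral_prod_right'

theorem w2_sq_int (h : W2 T w) :
    Integrable (fun t => ∫ x in cube, w t x ^ 2) (volume.restrict (Ioo 0 T)) :=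
  (w2_prod_sq h).integral_prod_left

theorem w2_fr_sq (h : W2 T w) (k : K3) :
    Integrable (fun t => ‖fr (w t) k‖ ^ 2) (volume.restrict (Ioo 0 T)) := by
  refine Integrable.mono' (w2_sq_int h) ((w2_fr_meas h k).norm.pow 2) ?_
  filter_upwards [(w2_slice h)] with t ht
  rw [Real.norm_of_nonneg (by positivity)]
  have h1 := bessel_cube ht {k}
  rwa [Finset.sum_singleton] at h1

/-- Bessel's inequality in space-time. -/
theorem w2_bessel (h : W2 T w) :
    Summable fun k => ∫ t in Ioo 0 T, ‖fr (w t) k‖ ^ 2 := by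
  refine summable_of_sum_le (c := ∫ t in Ioo 0 T, ∫ x in cube, w t x ^ 2)
    (fun k => integral_nonneg fun t => by positivity) fun A => ?_
  rw [← integral_finsetSum A fun k _ => w2_fr_sq h k]
  refine integral_mono_ae (integrable_finsetSum A fun k _ => w2_fr_sq h k) (w2_sq_int h) ?_
  filter_upwards [(w2_slice h)] with t ht
  exact bessel_cube ht A

/-- The coefficients of the superposition. -/
noncomputable def gam (ν T : ℝ) (w : ℝ → V → ℝ) (χ : ℝ → ℝ) (j : Fin 3) (k : K3) : ℂ :=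
  ∫ t in Ioo 0 T, (χ t * Real.exp (-(lam ν k * t)) : ℂ)
      * (2 * Real.pi * Complex.I * (k j : ℂ)) * fr (w t) k

theorem gam_herm (χ : ℝ → ℝ) (j : Fin 3) (k : K3) :
    gam ν T w χ j (-k) = conj (gam ν T w χ j k) := by
  unfold gam
  rw [← integral_conj]
  refine integral_congr_ae (Eventually.of_forall fun t => ?_)
  show (χ t * Real.exp (-(lam ν (-k) * t)) : ℂ) * (2 * Real.pi * Complex.I * ((-k) j : ℂ))
    * fr (w t) (-k) = conj ((χ t * Real.exp (-(lam ν k * t)) : ℂ)
      * (2 * Real.pi * Complex.I * (k j : ℂ)) * fr (w t) k)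
  have h1 : lam ν (-k) = lam ν k := by
    unfold lam
    rw [h782.GD.sq_neg]
  have h2 : ((2 : ℂ)) = ((2 : ℝ) : ℂ) := by norm_num
  have h3 : (((k j : ℤ)) : ℂ) = (((k j : ℝ)) : ℂ) := by push_cast; rfl
  rw [h32.GD.fr_neg, h1, Pi.neg_apply, map_mul, map_mul, map_mul, map_mul, map_mul, map_mul,
    Complex.conj_I, Complex.conj_ofReal, Complex.conj_ofReal, Complex.conj_ofReal, h2, h3,
    Complex.conj_ofReal, Complex.conj_ofReal]
  push_cast
  ring

theorem norm_int (χ : ℝ → ℝ) (j : Fin 3) (k : K3) (t : ℝ) :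
    ‖(χ t * Real.exp (-(lam ν k * t)) : ℂ) * (2 * Real.pi * Complex.I * (k j : ℂ)) * fr (w t) k‖
      = |χ t| * (Real.exp (-(lam ν k * t)) * (2 * Real.pi * |(k j : ℝ)|) * ‖fr (w t) k‖) := by
  have h3 : (((k j : ℤ)) : ℂ) = (((k j : ℝ)) : ℂ) := by push_cast; rfl
  rw [norm_mul, norm_mul, norm_mul, norm_mul, norm_mul, norm_mul, Complex.norm_I, h3,
    Complex.norm_real, Complex.norm_real, Complex.norm_real, Complex.norm_real,
    Real.norm_of_nonneg (Real.exp_pos _).le, Real.norm_of_nonneg Real.pi_pos.le,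
    Real.norm_eq_abs, Real.norm_eq_abs]
  simp only [Complex.norm_ofNat]
  ring

theorem lam_nonneg (hν : 0 < ν) (k : K3) : 0 ≤ lam ν k := by
  unfold lam
  have := h782.GD.sq_nonneg' k
  positivity

theorem exp_int (hν : 0 < ν) (hT : 0 < T) {k : K3} (hk : k ≠ 0) :
    ∫ t in Ioo 0 T, Real.exp (-(lam ν k * t)) ^ 2 ≤ 1 / (2 * lam ν k) := by
  have hl : 0 < lam ν k := by
    unfold lam
    have := h782.GD.sq_pos' hk
    positivity
  have e1 : ∀ t : ℝ, Real.exp (-(lam ν k * t)) ^ 2 = Real.exp (-(2 * lam ν k) * t) := by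
    intro t
    rw [← Real.exp_nat_mul]
    congr 1
    push_cast
    ring
  simp_rw [e1]
  have h1 : IntegrableOn (fun t => Real.exp (-(2 * lam ν k) * t)) (Ioi 0) :=
    integrableOn_exp_mul_Ioi (by linarith) 0
  have h2 : ∫ t in Ioo 0 T, Real.exp (-(2 * lam ν k) * t)
      ≤ ∫ t in Ioi 0, Real.exp (-(2 * lam ν k) * t) :=
    setIntegral_mono_set h1 (Eventually.of_forall fun t => (Real.exp_pos _).le)
      (Eventually.of_forall fun t (ht : t ∈ Ioo 0 T) => ht.1)
  refine h2.trans (le_of_eq ?_)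
  rw [integral_exp_mul_Ioi (by linarith)]
  rw [mul_zero, Real.exp_zero]
  field_simp

theorem gam_sq (hν : 0 < ν) (hT : 0 < T) (h : W2 T w) {χ : ℝ → ℝ} (hχ : Continuous χ)
    (j : Fin 3) : Summable fun k => ‖gam ν T w χ j k‖ ^ 2 := by
  obtain ⟨M, hM⟩ : ∃ M, ∀ t ∈ Icc 0 T, ‖χ t‖ ≤ M :=
    isCompact_Icc.exists_bound_of_continuousOn hχ.continuousOn
  have hM0 : 0 ≤ M := (norm_nonneg _).trans (hM 0 ⟨le_rfl, hT.le⟩)
  refine Summable.of_nonneg_of_le (fun _ => sq_nonneg _) (fun k => ?_)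
    ((w2_bessel h).mul_left (M ^ 2 / (2 * ν)))
  have hb0 : 0 ≤ ∫ t in Ioo 0 T, ‖fr (w t) k‖ ^ 2 := integral_nonneg fun t => by positivity
  by_cases hk : k = 0
  · have h0 : gam ν T w χ j k = 0 := by
      unfold gam
      rw [hk]
      simp
    rw [h0, norm_zero, zero_pow two_ne_zero]
    positivity
  have hfin : IsFiniteMeasure (volume.restrict (Ioo 0 T)) := ⟨by
    rw [Measure.restrict_apply_univ, Real.volume_Ioo]
    exact ENNReal.ofReal_lt_top⟩
  have hec : Continuous fun t : ℝ => Real.exp (-(lam ν k * t)) := by fun_prop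
  have hei : Integrable (fun t => Real.exp (-(lam ν k * t)) ^ 2) (volume.restrict (Ioo 0 T)) :=
    ((hec.pow 2).integrableOn_Icc).mono_set Ioo_subset_Icc_self
  have hprod : Integrable (fun t => Real.exp (-(lam ν k * t)) * ‖fr (w t) k‖)
      (volume.restrict (Ioo 0 T)) := by
    have h1 : MemLp (fun t => Real.exp (-(lam ν k * t))) 2 (volume.restrict (Ioo 0 T)) :=
      (memLp_two_iff_integrable_sq hec.aestronglyMeasurable).2 hei
    have h2 : MemLp (fun t => ‖fr (w t) k‖) 2 (volume.restrict (Ioo 0 T)) :=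
      (memLp_two_iff_integrable_sq (w2_fr_meas h k).norm).2 (w2_fr_sq h k)
    exact h1.integrable_mul h2
  have h1 : ‖gam ν T w χ j k‖ ≤ (M * (2 * Real.pi * |(k j : ℝ)|))
      * ∫ t in Ioo 0 T, Real.exp (-(lam ν k * t)) * ‖fr (w t) k‖ := by
    unfold gam
    refine (norm_integral_le_integral_norm _).trans ?_
    rw [← integral_const_mul]
    refine integral_mono_of_nonneg (Eventually.of_forall fun t => norm_nonneg _)
      (hprod.const_mul _) ?_
    refine (ae_restrict_iff' measurableSet_Ioo).2 (Eventually.of_forall fun t ht => ?_)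
    dsimp only
    rw [norm_int]
    have h2 := hM t ⟨ht.1.le, ht.2.le⟩
    rw [Real.norm_eq_abs] at h2
    have h3 : 0 ≤ Real.exp (-(lam ν k * t)) * (2 * Real.pi * |(k j : ℝ)|) * ‖fr (w t) k‖ := by
      have := Real.pi_pos
      positivity
    calc |χ t| * (Real.exp (-(lam ν k * t)) * (2 * Real.pi * |(k j : ℝ)|) * ‖fr (w t) k‖)
        ≤ M * (Real.exp (-(lam ν k * t)) * (2 * Real.pi * |(k j : ℝ)|) * ‖fr (w t) k‖) :=
          mul_le_mul_of_nonneg_right h2 h3
      _ = _ := by ring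
  have h2 := integral_mul_sq_le hei (w2_fr_sq h k) hprod
  have hl : 0 < lam ν k := by
    unfold lam
    have := h782.GD.sq_pos' hk
    positivity
  have h3 : (∫ t in Ioo 0 T, Real.exp (-(lam ν k * t)) * ‖fr (w t) k‖) ^ 2
      ≤ 1 / (2 * lam ν k) * ∫ t in Ioo 0 T, ‖fr (w t) k‖ ^ 2 :=
    h2.trans (mul_le_mul_of_nonneg_right (exp_int hν hT hk) hb0)
  have h4 : (M * (2 * Real.pi * |(k j : ℝ)|)) ^ 2 * (1 / (2 * lam ν k)) ≤ M ^ 2 / (2 * ν) := by
    have h5 : (k j : ℝ) ^ 2 ≤ h782.GD.sq k :=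
      Finset.single_le_sum (f := fun j => (k j : ℝ) ^ 2) (fun _ _ => sq_nonneg _)
        (Finset.mem_univ j)
    have h6 := h782.GD.sq_pos' hk
    rw [mul_one_div, div_le_div_iff₀ (by positivity) (by positivity)]
    unfold lam
    have h7 : (M * (2 * Real.pi * |(k j : ℝ)|)) ^ 2 * (2 * ν)
        = M ^ 2 * (2 * (4 * Real.pi ^ 2 * ν)) * (k j : ℝ) ^ 2 := by
      rw [mul_pow, mul_pow, sq_abs]
      ring
    rw [h7]
    have h8 : M ^ 2 * (2 * (4 * Real.pi ^ 2 * ν * h782.GD.sq k))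
        = M ^ 2 * (2 * (4 * Real.pi ^ 2 * ν)) * h782.GD.sq k := by ring
    rw [h8]
    exact mul_le_mul_of_nonneg_left h5 (by positivity)
  calc ‖gam ν T w χ j k‖ ^ 2
      ≤ ((M * (2 * Real.pi * |(k j : ℝ)|))
        * ∫ t in Ioo 0 T, Real.exp (-(lam ν k * t)) * ‖fr (w t) k‖) ^ 2 :=
        pow_le_pow_left₀ (norm_nonneg _) h1 2
    _ = (M * (2 * Real.pi * |(k j : ℝ)|)) ^ 2
        * (∫ t in Ioo 0 T, Real.exp (-(lam ν k * t)) * ‖fr (w t) k‖) ^ 2 := mul_pow _ _ _
    _ ≤ (M * (2 * Real.pi * |(k j : ℝ)|)) ^ 2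
        * (1 / (2 * lam ν k) * ∫ t in Ioo 0 T, ‖fr (w t) k‖ ^ 2) :=
        mul_le_mul_of_nonneg_left h3 (sq_nonneg _)
    _ = ((M * (2 * Real.pi * |(k j : ℝ)|)) ^ 2 * (1 / (2 * lam ν k)))
        * ∫ t in Ioo 0 T, ‖fr (w t) k‖ ^ 2 := by ring
    _ ≤ _ := mul_le_mul_of_nonneg_right h4 hb0

end Pool.Agent.Run7.h811.WQ
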