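import Pool.Agent.Run7.h782.WQ.Defs3
import Pool.Agent.Run7.h811.WQ.InitQ

/-!
Piece NecA of the project WQ, part 1: functions with given square summable coefficients as limits
of their heat regularisations.
-/

set_option autoImplicit false

open MeasureTheory Set Filter Topology
open scoped ContDiff ENNReal ComplexConjugate

namespace Pool.Agent.Run7.h811.WQ

open H459R3.NS Pool.Agent.Run7 Pool.Agent.Run7.h782.GD Pool.Agent.Run7.h782.GS
open Pool.Agent.Run7.h782.WS Pool.Agent.Run7.h744.GS Pool.Agent.Run7.h744.WS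
open Pool.Agent.Run7.h969.WS Pool.Agent.Run7.h811.WS Pool.Agent.Run7.h782.WQ

theorem len_le_sq (k : K3) : len k ≤ h782.GD.sq k := by
  by_cases hk : k = 0
  · subst hk
    rw [h782.GD.len_zero]
    exact h782.GD.sq_nonneg' 0
  · rw [← h782.GD.len_sq]
    have := h782.GD.one_le_len hk
    nlinarith

theorem ht_le_exp {s : ℝ} (hs : 0 ≤ s) (k : K3) :
    ht s k ≤ Real.exp (-(4 * Real.pi ^ 2 * s * len k)) := by
  unfold ht
  refine Real.exp_le_exp.2 (neg_le_neg ?_)
  have h1 := len_le_sq k
  have h2 : 0 ≤ 4 * Real.pi ^ 2 * s := by positivity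
  calc 4 * Real.pi ^ 2 * s * len k ≤ 4 * Real.pi ^ 2 * s * h782.GD.sq k :=
        mul_le_mul_of_nonneg_left h1 h2
    _ = _ := by ring

theorem ht_summable {s : ℝ} (hs : 0 < s) : Summable fun k => ht s k :=
  Summable.of_nonneg_of_le (fun k => (ht_pos s k).le) (fun k => ht_le_exp hs.le k)
    (h32.GD.summable_exp (by positivity))

theorem len_ht_summable {s : ℝ} (hs : 0 < s) : Summable fun k => len k * ht s k := by
  set μ : ℝ := 4 * Real.pi ^ 2 * s with hμ
  have hμ0 : 0 < μ := by positivity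
  refine Summable.of_nonneg_of_le (fun k => mul_nonneg (h782.GD.len_nonneg k) (ht_pos s k).le)
    (fun k => ?_) ((h32.GD.summable_exp (half_pos hμ0)).mul_left (2 / μ))
  have h1 : len k ≤ 2 / μ * Real.exp (μ / 2 * len k) := by
    have h2 := Real.add_one_le_exp (μ / 2 * len k)
    rw [div_mul_eq_mul_div, le_div_iff₀ hμ0]
    linarith
  calc len k * ht s k ≤ (2 / μ * Real.exp (μ / 2 * len k)) * Real.exp (-(μ * len k)) :=
        mul_le_mul h1 (ht_le_exp hs.le k) (ht_pos s k).le (by positivity)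
    _ = 2 / μ * Real.exp (-(μ / 2 * len k)) := by
        rw [mul_assoc, ← Real.exp_add]
        congr 2
        ring

theorem ht_le_one' {s : ℝ} (hs : 0 ≤ s) (k : K3) : ht s k ≤ 1 := h32.GD.hm_le_one hs k

/-- Regularised coefficients. -/
noncomputable def gs (γ : K3 → ℂ) (s : ℝ) (k : K3) : ℂ := (ht s k : ℂ) * γ k

theorem norm_gs (γ : K3 → ℂ) (s : ℝ) (k : K3) : ‖gs γ s k‖ = ht s k * ‖γ k‖ := by
  unfold gs
  rw [norm_mul, Complex.norm_real, Real.norm_of_nonneg (ht_pos s k).le]

theorem bdd_of_sq {γ : K3 → ℂ} (hs : Summable fun k => ‖γ k‖ ^ 2) : ∃ B : ℝ, ∀ k, ‖γ k‖ ≤ B := by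
  refine ⟨Real.sqrt (∑' k, ‖γ k‖ ^ 2), fun k => ?_⟩
  refine Real.le_sqrt_of_sq_le ?_
  exact hs.le_tsum k fun j _ => sq_nonneg _

theorem gs_summable {γ : K3 → ℂ} (hB : ∃ B : ℝ, ∀ k, ‖γ k‖ ≤ B) {s : ℝ} (hs : 0 < s) :
    Summable (gs γ s) := by
  obtain ⟨B, hB⟩ := hB
  refine Summable.of_norm (Summable.of_nonneg_of_le (fun _ => norm_nonneg _) (fun k => ?_)
    ((ht_summable hs).mul_right B))
  rw [norm_gs]
  exact mul_le_mul_of_nonneg_left (hB k) (ht_pos s k).le

theorem gs_herm {γ : K3 → ℂ} (hh : ∀ k, γ (-k) = conj (γ k)) (s : ℝ) (k : K3) :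
    gs γ s (-k) = conj (gs γ s k) := by
  unfold gs
  rw [hh, map_mul, Complex.conj_ofReal]
  congr 2
  unfold ht
  rw [h782.GD.sq_neg]

/-- The distance of the regularisations tends to zero. -/
theorem reg_lim {γ : K3 → ℂ} (hs : Summable fun k => ‖γ k‖ ^ 2) :
    Tendsto (fun s : ℝ => ∑' k, ‖gs γ s k - γ k‖ ^ 2) (𝓝[>] 0) (𝓝 0) := by
  have key : Tendsto (fun s : ℝ => ∑' k, ‖gs γ s k - γ k‖ ^ 2) (𝓝[>] 0)
      (𝓝 (∑' _k : K3, (0 : ℝ))) := by
   refine tendsto_tsum_of_dominated_convergence (bound := fun k => ‖γ k‖ ^ 2) hs (fun k => ?_) ?_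
   · have h1 : Tendsto (fun s : ℝ => ‖gs γ s k - γ k‖ ^ 2) (𝓝 0) (𝓝 (‖gs γ 0 k - γ k‖ ^ 2)) := by
       have h2 : Continuous fun s : ℝ => ‖gs γ s k - γ k‖ ^ 2 := by
         unfold gs
         have := ht_cont k
         fun_prop
       exact h2.tendsto 0
     have h3 : gs γ 0 k = γ k := by
       unfold gs ht
       simp
     rw [h3, sub_self, norm_zero, zero_pow two_ne_zero] at h1
     exact h1.mono_left nhdsWithin_le_nhds
   · filter_upwards [self_mem_nhdsWithin] with s hs' k
     have hs0 : (0 : ℝ) < s := hs'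
     rw [Real.norm_of_nonneg (by positivity)]
     refine pow_le_pow_left₀ (norm_nonneg _) ?_ 2
     have h1 : gs γ s k - γ k = -(((1 - ht s k : ℝ) : ℂ) * γ k) := by
       unfold gs
       push_cast
       ring
     rw [h1, norm_neg, norm_mul, Complex.norm_real, Real.norm_of_nonneg
       (by linarith [ht_le_one' hs0.le k])]
     refine mul_le_of_le_one_left (norm_nonneg _) ?_
     linarith [ht_pos s k]
  rwa [tsum_zero] at key

theorem S_sub' {a b : K3 → ℂ} (ha : Summable a) (hb : Summable b) (x : V) :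
    S (fun k => a k - b k) x = S a x - S b x := by
  unfold S
  rw [← (summable_term ha x).tsum_sub (summable_term hb x)]
  exact tsum_congr fun k => by ring

theorem eLp_re_le {a : K3 → ℂ} (ha : Summable a) :
    eLpNorm (fun x => (S a x).re) 2 (volume.restrict cube)
      ≤ ENNReal.ofReal (Real.sqrt (∑' k, ‖a k‖ ^ 2)) := by
  have := cube_finite
  have hc : Continuous fun x => (S a x).re := Complex.continuous_re.comp (S_continuous ha)
  have hm : MemLp (fun x => (S a x).re) 2 (volume.restrict cube) := by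
    obtain ⟨M, hM⟩ : ∃ M, ∀ x ∈ cube, ‖(S a x).re‖ ≤ M :=
      (isCompact_Icc : IsCompact cube).exists_bound_of_continuousOn hc.continuousOn
    exact MemLp.of_bound hc.aestronglyMeasurable M
      ((ae_restrict_iff' measurableSet_Icc).2 (Eventually.of_forall hM))
  rw [hm.eLpNorm_eq_integral_rpow_norm two_ne_zero ENNReal.ofNat_ne_top]
  refine ENNReal.ofReal_le_ofReal ?_
  have e2 : (2 : ℝ≥0∞).toReal = 2 := by simp
  rw [e2, Real.sqrt_eq_rpow, one_div]
  refine Real.rpow_le_rpow (integral_nonneg fun x => by positivity) ?_ (by norm_num)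
  rw [← n2_sq, ← integral_norm_sq ha]
  refine setIntegral_mono_on ?_ (integrableOn_cube ((S_continuous ha).norm.pow 2))
    measurableSet_Icc fun x _ => ?_
  · exact integrableOn_cube (hc.norm.rpow_const fun x => Or.inr (by norm_num))
  · rw [Real.rpow_two]
    exact pow_le_pow_left₀ (norm_nonneg _) (by
      rw [Real.norm_eq_abs]
      exact Complex.abs_re_le_norm _) 2

theorem ae_Ico : ∀ᵐ x ∂(volume.restrict cube), x ∈ Set.pi univ fun _ : Fin 3 => Ico (0 : ℝ) 1 := by
  have h2 : cube = Icc (0 : V) 1 := rfl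
  have h1 : (Set.pi univ fun _ : Fin 3 => Ico (0 : ℝ) 1 : Set V) =ᵐ[volume] cube := by
    rw [h2]
    exact Measure.univ_pi_Ico_ae_eq_Icc (μ := fun _ : Fin 3 => (volume : Measure ℝ))
      (f := (0 : V)) (g := (1 : V))
  rw [← Measure.restrict_congr_set h1]
  exact ae_restrict_mem (MeasurableSet.univ_pi fun _ => measurableSet_Ico)

/-- Riesz-Fischer, with regularisations which converge almost everywhere. -/
theorem rf_exists {γ : K3 → ℂ} (hh : ∀ k, γ (-k) = conj (γ k))
    (hs : Summable fun k => ‖γ k‖ ^ 2) :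
    ∃ (s : ℕ → ℝ) (f : V → ℝ), (∀ n, 0 < s n) ∧ Per f ∧ MemLp f 2 (volume.restrict cube) ∧
      (∀ k, fr f k = γ k) ∧ ∀ᵐ x ∂(volume.restrict cube),
        Tendsto (fun n => (S (gs γ (s n)) x).re) atTop (𝓝 (f x)) := by
  have := cube_finite
  have hB := bdd_of_sq hs
  -- the sequence
  have hex : ∀ n : ℕ, ∃ s : ℝ, 0 < s ∧ s ≤ 1 / (n + 1) ∧
      ∑' k, ‖gs γ s k - γ k‖ ^ 2 < (1 / 16) ^ (n + 1) := by
    intro n
    have h1 := (reg_lim hs).eventually
      (gt_mem_nhds (show (0 : ℝ) < (1 / 16) ^ (n + 1) by positivity))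
    have h2 : ∀ᶠ s : ℝ in 𝓝[>] 0, s < 1 / (n + 1) :=
      nhdsWithin_le_nhds (gt_mem_nhds (by positivity))
    obtain ⟨s, h3, h4, h5⟩ := (h1.and (h2.and self_mem_nhdsWithin)).exists
    exact ⟨s, h5, h4.le, h3⟩
  choose s hs0 hs1 hsd using hex
  set F : ℕ → V → ℝ := fun n x => (S (gs γ (s n)) x).re with hF
  have hsum : ∀ n, Summable (gs γ (s n)) := fun n => gs_summable hB (hs0 n)
  have hFc : ∀ n, Continuous (F n) := fun n =>
    Complex.continuous_re.comp (S_continuous (hsum n))
  have hFm : ∀ n, MemLp (F n) 2 (volume.restrict cube) := by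
    intro n
    obtain ⟨M, hM⟩ : ∃ M, ∀ x ∈ cube, ‖F n x‖ ≤ M :=
      (isCompact_Icc : IsCompact cube).exists_bound_of_continuousOn (hFc n).continuousOn
    exact MemLp.of_bound (hFc n).aestronglyMeasurable M
      ((ae_restrict_iff' measurableSet_Icc).2 (Eventually.of_forall hM))
  have hgl : ∀ n, ∑' k, ‖gs γ (s n) k - γ k‖ ^ 2 ≤ (1 / 16) ^ (n + 1) := fun n => (hsd n).le
  have hsq : ∀ n, Summable fun k => ‖gs γ (s n) k - γ k‖ ^ 2 := by
    intro n
    refine Summable.of_nonneg_of_le (fun _ => sq_nonneg _) (fun k => ?_) hs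
    refine pow_le_pow_left₀ (norm_nonneg _) ?_ 2
    have h1 : gs γ (s n) k - γ k = -(((1 - ht (s n) k : ℝ) : ℂ) * γ k) := by
      unfold gs
      push_cast
      ring
    rw [h1, norm_neg, norm_mul, Complex.norm_real, Real.norm_of_nonneg
      (by linarith [ht_le_one' (hs0 n).le k])]
    refine mul_le_of_le_one_left (norm_nonneg _) ?_
    linarith [ht_pos (s n) k]
  have hcau : ∀ N n m : ℕ, N ≤ n → N ≤ m →
      eLpNorm (F n - F m) 2 (volume.restrict cube) < ENNReal.ofReal ((1 / 2) ^ N) := by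
    intro N n m hn hm
    have e1 : F n - F m = fun x => (S (fun k => gs γ (s n) k - gs γ (s m) k) x).re := by
      funext x
      rw [S_sub' (hsum n) (hsum m), Complex.sub_re]
      rfl
    rw [e1]
    refine lt_of_le_of_lt (eLp_re_le ((hsum n).sub (hsum m))) ?_
    refine (ENNReal.ofReal_lt_ofReal_iff (by positivity)).2 ?_
    have h1 : ∑' k, ‖gs γ (s n) k - gs γ (s m) k‖ ^ 2
        ≤ 2 * (1 / 16) ^ (n + 1) + 2 * (1 / 16) ^ (m + 1) := by
      have h2 : ∀ k, ‖gs γ (s n) k - gs γ (s m) k‖ ^ 2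
          ≤ 2 * ‖gs γ (s n) k - γ k‖ ^ 2 + 2 * ‖gs γ (s m) k - γ k‖ ^ 2 := by
        intro k
        have h3 : ‖gs γ (s n) k - gs γ (s m) k‖ ≤ ‖gs γ (s n) k - γ k‖ + ‖gs γ (s m) k - γ k‖ := by
          have h4 : gs γ (s n) k - gs γ (s m) k
              = (gs γ (s n) k - γ k) - (gs γ (s m) k - γ k) := by ring
          rw [h4]
          exact norm_sub_le _ _
        have h5 := pow_le_pow_left₀ (norm_nonneg _) h3 2
        nlinarith [sq_nonneg (‖gs γ (s n) k - γ k‖ - ‖gs γ (s m) k - γ k‖)]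
      have h6 := ((hsq n).mul_left 2).add ((hsq m).mul_left 2)
      refine (Summable.tsum_le_tsum h2 (Summable.of_nonneg_of_le (fun _ => sq_nonneg _) h2 h6)
        h6).trans ?_
      rw [((hsq n).mul_left 2).tsum_add ((hsq m).mul_left 2), tsum_mul_left, tsum_mul_left]
      have := hgl n
      have := hgl m
      linarith
    have h2 : ∀ i : ℕ, N ≤ i → ((1 : ℝ) / 16) ^ (i + 1) ≤ (1 / 16) ^ (N + 1) := fun i hi =>
      pow_le_pow_of_le_one (by norm_num) (by norm_num) (by omega)
    have h3 := h2 n hn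
    have h4 := h2 m hm
    rw [Real.sqrt_lt' (by positivity)]
    have h5 : (((1 : ℝ) / 2) ^ N) ^ 2 = (1 / 4) ^ N := by
      rw [← pow_mul, mul_comm, pow_mul]
      norm_num
    have h6 : ((1 : ℝ) / 16) ^ N ≤ (1 / 4) ^ N := pow_le_pow_left₀ (by norm_num) (by norm_num) N
    have h7 : (0 : ℝ) < (1 / 16) ^ N := by positivity
    have h8 : ((1 : ℝ) / 16) ^ (N + 1) = (1 / 16) ^ N * (1 / 16) := pow_succ _ _
    rw [h5]
    linarith
  have hBs : ∑' N : ℕ, ENNReal.ofReal ((1 / 2) ^ N) ≠ ⊤ := by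
    rw [← ENNReal.ofReal_tsum_of_nonneg (fun N => by positivity) summable_geometric_two]
    exact ENNReal.ofReal_ne_top
  obtain ⟨f₀, hf₀, hlim⟩ := Lp.cauchy_complete_eLpNorm (by norm_num) hFm hBs hcau
  -- the periodic version
  set f : V → ℝ := fun x => f₀ fun i => Int.fract (x i) with hf
  have hff : f =ᵐ[volume.restrict cube] f₀ := by
    filter_upwards [ae_Ico] with x hx
    simp only [hf]
    congr 1
    funext i
    have h1 := hx i (mem_univ i)
    exact Int.fract_eq_self.2 ⟨h1.1, h1.2⟩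
  have hfm : MemLp f 2 (volume.restrict cube) := (memLp_congr_ae hff).2 hf₀
  have hlimf : Tendsto (fun n => eLpNorm (F n - f) 2 (volume.restrict cube)) atTop (𝓝 0) := by
    refine hlim.congr fun n => eLpNorm_congr_ae ?_
    filter_upwards [hff] with x hx
    rw [Pi.sub_apply, Pi.sub_apply, hx]
  obtain ⟨ns, hns, hae⟩ := (tendstoInMeasure_of_tendsto_eLpNorm two_ne_zero
    (fun n => (hFm n).1) hfm.1 hlimf).exists_seq_tendsto_ae
  refine ⟨fun n => s (ns n), f, fun n => hs0 _, ?_, hfm, ?_, hae⟩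
  · intro i x
    simp only [hf]
    congr 1
    funext j
    by_cases hj : j = i
    · subst hj
      rw [Pi.add_apply, Pi.single_eq_same, Int.fract_add_one]
    · rw [Pi.add_apply, Pi.single_eq_of_ne hj, add_zero]
  · -- the coefficients
    intro k
    have hfi : Integrable f (volume.restrict cube) := hfm.integrable (by norm_num)
    have hlim1 : Tendsto (fun n => fr (F n) k) atTop (𝓝 (fr f k)) := by
      have h1 : Tendsto (fun n => eLpNorm (F n - f) 1 (volume.restrict cube)) atTop (𝓝 0) := by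
        refine tendsto_of_tendsto_of_tendsto_of_le_of_le tendsto_const_nhds hlimf
          (fun _ => zero_le) fun n => ?_
        have hprob : IsProbabilityMeasure (volume.restrict cube) := ⟨by
          rw [Measure.restrict_apply_univ, volume_cube]⟩
        exact eLpNorm_le_eLpNorm_of_exponent_le (by norm_num) ((hFm n).1.sub hfm.1)
      rw [tendsto_iff_norm_sub_tendsto_zero]
      have h2 : ∀ n, ‖fr (F n) k - fr f k‖
          ≤ (eLpNorm (F n - f) 1 (volume.restrict cube)).toReal := by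
        intro n
        have hFi : Integrable (F n) (volume.restrict cube) := (hFm n).integrable (by norm_num)
        have hb : ∀ g : V → ℝ, Integrable g (volume.restrict cube) →
            Integrable (fun x => ee (-k) x * ((g x : ℝ) : ℂ)) (volume.restrict cube) := by
          intro g hg
          refine hg.ofReal.bdd_mul (c := 1) (ee_continuous _).aestronglyMeasurable
            (Eventually.of_forall fun x => (norm_ee _ _).le)
        have h3 : fr (F n) k - fr f k
            = ∫ x in cube, ee (-k) x * (((F n - f) x : ℝ) : ℂ) := by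
          unfold fr fc
          rw [← integral_sub (hb _ hFi) (hb _ hfi)]
          refine integral_congr_ae (Eventually.of_forall fun x => ?_)
          show ee (-k) x * ((F n x : ℝ) : ℂ) - ee (-k) x * ((f x : ℝ) : ℂ) = _
          have h9 : (F n - f) x = F n x - f x := rfl
          dsimp only
          rw [h9]
          push_cast
          ring
        rw [h3]
        refine (norm_integral_le_integral_norm _).trans (le_of_eq ?_)
        rw [eLpNorm_one_eq_lintegral_enorm, ← integral_norm_eq_lintegral_enorm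
          ((hFm n).1.sub hfm.1)]
        refine integral_congr_ae (Eventually.of_forall fun x => ?_)
        show ‖ee (-k) x * (((F n - f) x : ℝ) : ℂ)‖ = ‖(F n - f) x‖
        rw [norm_mul, norm_ee, one_mul, Complex.norm_real]
      have h4 := (ENNReal.tendsto_toReal ENNReal.zero_ne_top).comp h1
      rw [ENNReal.toReal_zero] at h4
      exact squeeze_zero (fun _ => norm_nonneg _) h2 h4
    have hlim2 : Tendsto (fun n => fr (F n) k) atTop (𝓝 (γ k)) := by
      have h1 : ∀ n, fr (F n) k = gs γ (s n) k := fun n =>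
        h32.GD.fr_S (hsum n) (gs_herm hh (s n)) k
      simp_rw [h1]
      have h2 : Tendsto s atTop (𝓝 0) :=
        squeeze_zero (fun n => (hs0 n).le) hs1 tendsto_one_div_add_atTop_nhds_zero_nat
      have h3 : Continuous fun τ : ℝ => gs γ τ k := by
        unfold gs
        have := ht_cont k
        fun_prop
      have h4 := (h3.tendsto 0).comp h2
      have h5 : gs γ 0 k = γ k := by
        unfold gs ht
        simp
      rw [h5] at h4
      exact h4
    exact tendsto_nhds_unique hlim1 hlim2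

end Pool.Agent.Run7.h811.WQ
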