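import Pool.Agent.Run7.h811.WQ.NecA2
import Pool.Agent.Run7.h980.WQ.VW

/-!
Piece NecA of the project WQ, part 3: duality.
-/

set_option autoImplicit false

open MeasureTheory Set Filter Topology
open scoped ContDiff ENNReal ComplexConjugate

namespace Pool.Agent.Run7.h811.WQ

open H459R3.NS Pool.Agent.Run7 Pool.Agent.Run7.h782.GD Pool.Agent.Run7.h782.GS
open Pool.Agent.Run7.h782.WS Pool.Agent.Run7.h744.GS Pool.Agent.Run7.h744.WS
open Pool.Agent.Run7.h969.WS Pool.Agent.Run7.h811.WS Pool.Agent.Run7.h782.WQ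

theorem hasSum_S_int {a : K3 → ℂ} (ha : Summable a) {h : V → ℝ}
    (hh : Integrable h (volume.restrict cube)) :
    HasSum (fun k => a k * fr h (-k)) (∫ x in cube, S a x * ((h x : ℝ) : ℂ)) := by
  have hi : ∀ k, Integrable (fun x => a k * (ee k x * ((h x : ℝ) : ℂ))) (volume.restrict cube) :=
    fun k => (int_ee_mul hh k).const_mul _
  have hs : Summable fun k => ∫ x in cube, ‖a k * (ee k x * ((h x : ℝ) : ℂ))‖ := by
    have e : ∀ k, ∫ x in cube, ‖a k * (ee k x * ((h x : ℝ) : ℂ))‖
        = ‖a k‖ * ∫ x in cube, ‖((h x : ℝ) : ℂ)‖ := by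
      intro k
      rw [← integral_const_mul]
      refine integral_congr_ae (Eventually.of_forall fun x => ?_)
      dsimp only
      rw [norm_mul, norm_mul, norm_ee, one_mul]
    simp_rw [e]
    exact ha.norm.mul_right _
  have h1 := hasSum_integral_of_summable_integral_norm hi hs
  have e1 : ∀ k, ∫ x in cube, a k * (ee k x * ((h x : ℝ) : ℂ)) = a k * fr h (-k) := by
    intro k
    rw [integral_const_mul]
    unfold fr fc
    rw [neg_neg]
  simp_rw [e1] at h1
  have e2 : (∫ x in cube, ∑' k, a k * (ee k x * ((h x : ℝ) : ℂ)))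
      = ∫ x in cube, S a x * ((h x : ℝ) : ℂ) := by
    refine integral_congr_ae (Eventually.of_forall fun x => ?_)
    dsimp only
    unfold S
    rw [← tsum_mul_right]
    exact tsum_congr fun k => by ring
  rwa [e2] at h1

/-- Parseval's identity for a real absolutely convergent series and an integrable function. -/
theorem hasSum_re_int {a : K3 → ℂ} (ha : Summable a) (hc : ∀ k, a (-k) = conj (a k)) {h : V → ℝ}
    (hh : Integrable h (volume.restrict cube)) :
    HasSum (fun k => a k * fr h (-k)) (((∫ x in cube, (S a x).re * h x : ℝ)) : ℂ) := by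
  have h1 := hasSum_S_int ha hh
  have e : ∫ x in cube, S a x * ((h x : ℝ) : ℂ)
      = (((∫ x in cube, (S a x).re * h x : ℝ)) : ℂ) := by
    rw [← integral_complex_ofReal]
    refine integral_congr_ae (Eventually.of_forall fun x => ?_)
    dsimp only
    rw [Complex.ofReal_mul, ← h32.GD.S_real hc x]
  rwa [e] at h1

theorem bm_integrable {g : V → ℝ} (hg : BM g) : Integrable g (volume.restrict cube) := by
  have := cube_finite
  obtain ⟨M, hM⟩ := hg.bd
  exact Integrable.of_bound hg.meas M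
    ((ae_restrict_iff' measurableSet_Icc).2 (Eventually.of_forall hM))

theorem fr_bdd (g : V → ℝ) : ∃ B : ℝ, ∀ k, ‖fr g k‖ ≤ B := by
  refine ⟨∫ x in cube, ‖g x‖, fun k => ?_⟩
  unfold fr fc
  refine (norm_integral_le_integral_norm _).trans (le_of_eq ?_)
  refine integral_congr_ae (Eventually.of_forall fun x => ?_)
  dsimp only
  rw [norm_mul, norm_ee, one_mul, Complex.norm_real]

theorem heat_eq (τ : ℝ) (g : V → ℝ) (x : V) : heat τ g x = (S (gs (fr g) τ) x).re := rfl

theorem gs_dec (g : V → ℝ) {τ : ℝ} (hτ : 0 < τ) :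
    h32.GD.Dec fun _ => gs (fr g) τ := by
  obtain ⟨B, hB⟩ := fr_bdd g
  have hB0 : 0 ≤ B := (norm_nonneg _).trans (hB 0)
  refine ⟨4 * Real.pi ^ 2 * τ, by positivity, B, hB0, fun _ _ k => ?_⟩
  rw [norm_gs, mul_comm B]
  exact mul_le_mul (ht_le_exp hτ.le k) (hB k) (norm_nonneg _) (Real.exp_pos _).le

theorem pd_heat (g : V → ℝ) {τ : ℝ} (hτ : 0 < τ) (j : Fin 3) (x : V) :
    pd j (heat τ g) x = (S (D j (gs (fr g) τ)) x).re := by
  have h1 : heat τ g = fun y => (S (gs (fr g) τ) y).re := rfl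
  rw [h1]
  exact h32.GD.pd_reS (gs_dec g hτ) x j

theorem D_herm {a : K3 → ℂ} (hc : ∀ k, a (-k) = conj (a k)) (j : Fin 3) (k : K3) :
    D j a (-k) = conj (D j a k) := by
  have h2 : ((2 : ℂ)) = ((2 : ℝ) : ℂ) := by norm_num
  have h3 : (((k j : ℤ)) : ℂ) = (((k j : ℝ)) : ℂ) := by push_cast; rfl
  unfold D
  rw [hc, map_mul, map_mul, map_mul, map_mul, Complex.conj_I, Complex.conj_ofReal, h2, h3,
    Complex.conj_ofReal, Complex.conj_ofReal, Pi.neg_apply]
  push_cast
  ring

variable {ν T : ℝ} {w : ℝ → V → ℝ}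

/-- The identity at one time. -/
theorem one_time (hν : 0 < ν) (g : V → ℝ) {s t : ℝ} (hs : 0 < s) (ht0 : 0 ≤ t)
    {h : V → ℝ} (hh : Integrable h (volume.restrict cube)) (j : Fin 3) (c : ℝ) :
    HasSum (fun k => (ht s k : ℂ) * ((c * Real.exp (-(lam ν k * t)) : ℂ)
        * (2 * Real.pi * Complex.I * (k j : ℂ)) * fr h k) * fr g (-k))
      (((-(c * ∫ x in cube, pd j (heat (ν * t + s) g) x * h x) : ℝ)) : ℂ) := by
  have hτ : 0 < ν * t + s := by positivity
  have h0 := hasSum_re_int (a := D j (gs (fr g) (ν * t + s)))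
    (((gs_dec g hτ).D j).summable (le_refl (0 : ℝ)))
    (D_herm (gs_herm (h32.GD.fr_neg g) _) j) hh
  have e1 : ∫ x in cube, (S (D j (gs (fr g) (ν * t + s))) x).re * h x
      = ∫ x in cube, pd j (heat (ν * t + s) g) x * h x := by
    refine integral_congr_ae (Eventually.of_forall fun x => ?_)
    dsimp only
    rw [pd_heat g hτ j x]
  rw [e1] at h0
  have h2 := ((Equiv.neg K3).hasSum_iff.2 h0).mul_left (-(c : ℂ))
  have e2 : (((-(c * ∫ x in cube, pd j (heat (ν * t + s) g) x * h x) : ℝ)) : ℂ)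
      = -(c : ℂ) * (((∫ x in cube, pd j (heat (ν * t + s) g) x * h x : ℝ)) : ℂ) := by
    push_cast
    ring
  rw [e2]
  have e3 : (fun k => (ht s k : ℂ) * ((c * Real.exp (-(lam ν k * t)) : ℂ)
        * (2 * Real.pi * Complex.I * (k j : ℂ)) * fr h k) * fr g (-k))
      = fun k => -(c : ℂ) * ((fun k => D j (gs (fr g) (ν * t + s)) k * fr h (-k))
        ∘ (Equiv.neg K3)) k := by
    funext k
    have e4 : ht (ν * t + s) (-k) = ht s k * Real.exp (-(lam ν k * t)) := by
      unfold ht lam
      rw [h782.GD.sq_neg, ← Real.exp_add]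
      congr 1
      ring
    show _ = -(c : ℂ) * (D j (gs (fr g) (ν * t + s)) (-k) * fr h (- -k))
    unfold D gs
    rw [e4, neg_neg, Pi.neg_apply]
    push_cast
    ring
  rw [e3]
  exact h2

/-- Duality with bounded functions. -/
theorem duality (hν : 0 < ν) (hT : 0 < T) (hw : W2 T w) {χ : ℝ → ℝ} (hχ : Continuous χ)
    (j : Fin 3) {s : ℝ} (hs : 0 < s) {g : V → ℝ} (hg : BM g) :
    (((∫ x in cube, (S (gs (gam ν T w χ j) s) x).re * g x : ℝ)) : ℂ)
      = ∫ t in Ioo 0 T,
        (((-(χ t * ∫ x in cube, pd j (heat (ν * t + s) g) x * w t x) : ℝ)) : ℂ) := by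
  have hfin : IsFiniteMeasure (volume.restrict (Ioo 0 T)) := ⟨by
    rw [Measure.restrict_apply_univ, Real.volume_Ioo]
    exact ENNReal.ofReal_lt_top⟩
  obtain ⟨M, hM⟩ : ∃ M, ∀ t ∈ Icc 0 T, ‖χ t‖ ≤ M :=
    isCompact_Icc.exists_bound_of_continuousOn hχ.continuousOn
  have hM0 : 0 ≤ M := (norm_nonneg _).trans (hM 0 ⟨le_rfl, hT.le⟩)
  obtain ⟨B, hB⟩ := fr_bdd g
  have hB0 : 0 ≤ B := (norm_nonneg _).trans (hB 0)
  -- the left-hand side
  have hL := hasSum_re_int (gs_summable (bdd_of_sq (gam_sq hν hT hw hχ j)) hs)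
    (gs_herm (gam_herm χ j) s) (bm_integrable hg)
  set X : K3 → ℝ → ℂ := fun k t => (χ t * Real.exp (-(lam ν k * t)) : ℂ)
      * (2 * Real.pi * Complex.I * (k j : ℂ)) * fr (w t) k with hX
  set Y : K3 → ℝ → ℂ := fun k t => (ht s k : ℂ) * X k t * fr g (-k) with hY
  have hfi : ∀ k, Integrable (fun t => fr (w t) k) (volume.restrict (Ioo 0 T)) := by
    intro k
    have h1 : MemLp (fun t => fr (w t) k) 2 (volume.restrict (Ioo 0 T)) :=
      (memLp_two_iff_integrable_sq_norm (w2_fr_meas hw k)).2 (w2_fr_sq hw k)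
    exact h1.integrable (by norm_num)
  have hXm : ∀ k, AEStronglyMeasurable (X k) (volume.restrict (Ioo 0 T)) := by
    intro k
    refine AEStronglyMeasurable.mul ?_ (w2_fr_meas hw k)
    have : Continuous fun t => (χ t * Real.exp (-(lam ν k * t)) : ℂ)
        * (2 * Real.pi * Complex.I * (k j : ℂ)) := by fun_prop
    exact this.aestronglyMeasurable
  have hXb : ∀ k, ∀ᵐ t ∂(volume.restrict (Ioo 0 T)), ‖X k t‖ ≤
      (M * (2 * Real.pi * len k)) * ‖fr (w t) k‖ := by
    intro k
    refine (ae_restrict_iff' measurableSet_Ioo).2 (Eventually.of_forall fun t ht => ?_)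
    have h1 := hM t ⟨ht.1.le, ht.2.le⟩
    rw [Real.norm_eq_abs] at h1
    have h2 : Real.exp (-(lam ν k * t)) ≤ 1 := by
      refine Real.exp_le_one_iff.2 ?_
      have := mul_nonneg (lam_nonneg hν k) ht.1.le
      linarith
    have h3 := h32.GD.abs_le_len k j
    have hp := Real.pi_pos
    simp only [hX]
    rw [norm_int]
    calc |χ t| * (Real.exp (-(lam ν k * t)) * (2 * Real.pi * |(k j : ℝ)|) * ‖fr (w t) k‖)
        ≤ M * (1 * (2 * Real.pi * len k) * ‖fr (w t) k‖) := by
          refine mul_le_mul h1 (mul_le_mul_of_nonneg_right (mul_le_mul h2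
            (mul_le_mul_of_nonneg_left h3 (by positivity)) (by positivity) zero_le_one)
            (norm_nonneg _)) (by positivity) hM0
      _ = _ := by ring
  have hXi : ∀ k, Integrable (X k) (volume.restrict (Ioo 0 T)) := fun k =>
    Integrable.mono' ((hfi k).norm.const_mul _) (hXm k) (hXb k)
  have hYi : ∀ k, Integrable (Y k) (volume.restrict (Ioo 0 T)) := fun k =>
    ((hXi k).const_mul _).mul_const _
  set R : ℝ := T + ∫ t in Ioo 0 T, ∫ x in cube, w t x ^ 2 with hR
  have hfR : ∀ k, ∫ t in Ioo 0 T, ‖fr (w t) k‖ ≤ R := by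
    intro k
    have h1 : ∫ t in Ioo 0 T, ‖fr (w t) k‖ ≤ ∫ t in Ioo 0 T, (1 + ∫ x in cube, w t x ^ 2) := by
      refine integral_mono_ae (hfi k).norm ((integrable_const _).add (w2_sq_int hw)) ?_
      filter_upwards [w2_slice hw] with t ht
      have h2 := bessel_cube ht {k}
      rw [Finset.sum_singleton] at h2
      nlinarith [sq_nonneg (‖fr (w t) k‖ - 1)]
    rw [integral_add (integrable_const _) (w2_sq_int hw)] at h1
    have h3 : ∫ _t in Ioo 0 T, (1 : ℝ) = T := by
      rw [setIntegral_const, measureReal_def, Real.volume_Ioo, sub_zero,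
        ENNReal.toReal_ofReal hT.le, smul_eq_mul, mul_one]
    rw [h3] at h1
    exact h1
  have hYs : Summable fun k => ∫ t in Ioo 0 T, ‖Y k t‖ := by
    refine Summable.of_nonneg_of_le (fun k => integral_nonneg fun t => norm_nonneg _)
      (fun k => ?_) ((len_ht_summable hs).mul_right (M * (2 * Real.pi) * R * B))
    have h1 : ∫ t in Ioo 0 T, ‖Y k t‖ ≤ ∫ t in Ioo 0 T,
        (ht s k * (M * (2 * Real.pi * len k)) * B) * ‖fr (w t) k‖ := by
      refine integral_mono_ae (hYi k).norm ((hfi k).norm.const_mul _) ?_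
      filter_upwards [hXb k] with t ht1
      simp only [hY]
      rw [norm_mul, norm_mul, Complex.norm_real, Real.norm_of_nonneg (ht_pos s k).le]
      have h2 := (ht_pos s k).le
      calc ht s k * ‖X k t‖ * ‖fr g (-k)‖
          ≤ ht s k * ((M * (2 * Real.pi * len k)) * ‖fr (w t) k‖) * B := by
            refine mul_le_mul (mul_le_mul_of_nonneg_left ht1 h2) (hB _) (norm_nonneg _) ?_
            have := h782.GD.len_nonneg k
            have := Real.pi_pos
            positivity
        _ = _ := by ring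
    rw [integral_const_mul] at h1
    have h4 : 0 ≤ ht s k * (M * (2 * Real.pi * len k)) * B := by
      have := (ht_pos s k).le
      have := h782.GD.len_nonneg k
      have := Real.pi_pos
      positivity
    refine h1.trans ((mul_le_mul_of_nonneg_left (hfR k) h4).trans (le_of_eq ?_))
    ring
  have h1 := hasSum_integral_of_summable_integral_norm hYi hYs
  have h2 : ∀ k, ∫ t in Ioo 0 T, Y k t = gs (gam ν T w χ j) s k * fr g (-k) := by
    intro k
    simp only [hY]
    rw [integral_mul_const, integral_const_mul]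
    rfl
  simp_rw [h2] at h1
  rw [hL.unique h1]
  refine integral_congr_ae ?_
  filter_upwards [w2_slice hw, ae_restrict_mem measurableSet_Ioo] with t ht1 ht2
  have := cube_finite
  exact (one_time hν g hs ht2.1.le (ht1.integrable (by norm_num)) j (χ t)).tsum_eq

end Pool.Agent.Run7.h811.WQ
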